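import Mathlib

/-! # Concave moduli: elementary lemmas -/

set_option autoImplicit false

open Set Filter Topology

namespace Pool.Agent.Q74.Semi

/-- A concave modulus. -/
structure Mod (ω : ℝ → ℝ) : Prop where
  nonneg : ∀ t, 0 ≤ t → 0 ≤ ω t
  mono : ∀ s t, 0 ≤ s → s ≤ t → ω s ≤ ω t
  lim : Tendsto ω (𝓝[>] 0) (𝓝 0)
  conc : ConcaveOn ℝ (Ici 0) ω

variable {ω : ℝ → ℝ}

theorem Mod.zero (h : Mod ω) : ω 0 = 0 := by
  apply le_antisymm _ (h.nonneg 0 le_rfl)
  refine ge_of_tendsto h.lim ?_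
  filter_upwards [self_mem_nhdsWithin] with t ht
  exact h.mono 0 t le_rfl (le_of_lt ht)

theorem Mod.star (h : Mod ω) {c t : ℝ} (hc : 0 ≤ c) (hc1 : c ≤ 1) (ht : 0 ≤ t) :
    c * ω t ≤ ω (c * t) := by
  have := h.conc.2 (mem_Ici.2 ht) (mem_Ici.2 le_rfl : (0:ℝ) ∈ Ici 0) hc (sub_nonneg.2 hc1) (by ring)
  simpa [h.zero] using this

theorem Mod.cross (h : Mod ω) {a b : ℝ} (ha : 0 ≤ a) (hab : a ≤ b) : a * ω b ≤ b * ω a := by
  rcases eq_or_lt_of_le (ha.trans hab) with hb | hb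
  · have : a = 0 := le_antisymm (hab.trans hb.symm.le) ha
    subst this
    rw [← hb]
  · have := h.star (c := a / b) (t := b) (by positivity) ((div_le_one hb).2 hab) hb.le
    rw [div_mul_cancel₀ _ hb.ne'] at this
    calc a * ω b = b * (a / b * ω b) := by field_simp
      _ ≤ b * ω a := by gcongr

theorem Mod.scale (h : Mod ω) {c t : ℝ} (hc : 1 ≤ c) (ht : 0 ≤ t) : ω (c * t) ≤ c * ω t := by
  rcases eq_or_lt_of_le ht with h0 | h0
  · rw [← h0, mul_zero, h.zero, mul_zero]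
  · have := h.cross ht (le_mul_of_one_le_left ht hc)
    rw [mul_right_comm] at this
    nlinarith

theorem Mod.subadd (h : Mod ω) {a d : ℝ} (ha : 0 ≤ a) (hd : 0 ≤ d) :
    ω (a + d) ≤ ω a + ω d := by
  rcases eq_or_lt_of_le (add_nonneg ha hd) with h0 | h0
  · have h1 : a = 0 := by linarith
    have h2 : d = 0 := by linarith
    subst h1 h2
    simp [h.zero]
  · have h1 := h.cross ha (le_add_of_nonneg_right hd : a ≤ a + d)
    have h2 := h.cross hd (le_add_of_nonneg_left ha : d ≤ a + d)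
    nlinarith

theorem Mod.pos (h : Mod ω) (hp : ∃ t, 0 < t ∧ 0 < ω t) {t : ℝ} (ht : 0 < t) : 0 < ω t := by
  obtain ⟨s, hs, hs'⟩ := hp
  rcases le_total s t with hst | hst
  · exact hs'.trans_le (h.mono _ _ hs.le hst)
  · have := h.cross ht.le hst
    by_contra hcon
    push Not at hcon
    have : 0 < t * ω s := by positivity
    nlinarith

end Pool.Agent.Q74.Semi
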