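import Mathlib
import Pool.Agent.Q74.Semi.Mod

/-! # Cutoff functions and the bound for one term of the series -/

set_option autoImplicit false

open Set Filter Topology
open scoped RealInnerProductSpace

namespace Pool.Agent.Q74.Semi

variable {E : Type*} [NormedAddCommGroup E] [InnerProductSpace ℝ E]

theorem second_diff_1d {g g' : ℝ → ℝ} (hg : ∀ t, HasDerivAt g (g' t) t) {M : ℝ}
    (hM : ∀ s ∈ Icc (0:ℝ) 1, ∀ t ∈ Icc (0:ℝ) 1, |g' s - g' t| ≤ M) {l : ℝ} (h0 : 0 ≤ l) (h1 : l ≤ 1) :
    |l * g 1 + (1 - l) * g 0 - g l| ≤ l * (1 - l) * M := by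
  rcases eq_or_lt_of_le h0 with h0 | h0
  · subst h0; simp
  rcases eq_or_lt_of_le h1 with h1 | h1
  · subst h1; simp
  have hc : Continuous g := continuous_iff_continuousAt.2 fun t => (hg t).continuousAt
  obtain ⟨a, ha, ha'⟩ := exists_hasDerivAt_eq_slope g g' h0 hc.continuousOn (fun t _ => hg t)
  obtain ⟨b, hb, hb'⟩ := exists_hasDerivAt_eq_slope g g' h1 hc.continuousOn (fun t _ => hg t)
  have h2 : g l - g 0 = l * g' a := by rw [ha']; field_simp; ring
  have h3 : g 1 - g l = (1 - l) * g' b := by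
    rw [hb']
    have : (1 - l) ≠ 0 := by linarith
    field_simp
  have h4 : l * g 1 + (1 - l) * g 0 - g l = l * (1 - l) * (g' b - g' a) := by
    have : l * g 1 + (1 - l) * g 0 - g l = l * (g 1 - g l) - (1 - l) * (g l - g 0) := by ring
    rw [this, h2, h3]; ring
  have h5 : 0 ≤ l * (1 - l) := mul_nonneg h0.le (by linarith)
  rw [h4, abs_mul, abs_of_nonneg h5]
  exact mul_le_mul_of_nonneg_left (hM b ⟨by linarith [hb.1], hb.2.le⟩ a ⟨ha.1.le, by linarith [ha.2]⟩) h5

variable (E) in
theorem exists_bump [FiniteDimensional ℝ E] : ∃ (φ : E → ℝ) (L : ℝ), 0 < L ∧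
    (∀ x, 0 ≤ φ x ∧ φ x ≤ 1) ∧ (∀ x, ‖x‖ ≤ 1 → φ x = 1) ∧ (∀ x, 2 ≤ ‖x‖ → φ x = 0) ∧
    (∀ x y, |φ x - φ y| ≤ L * ‖x - y‖) ∧
    (∀ (x y : E) (l : ℝ), 0 ≤ l → l ≤ 1 →
      |l * φ x + (1 - l) * φ y - φ (l • x + (1 - l) • y)| ≤ L * (l * (1 - l) * ‖x - y‖ ^ 2)) := by
  let b : ContDiffBump (0 : E) := ⟨1, 2, by norm_num, by norm_num⟩
  have hb2 : ContDiff ℝ 2 b := b.contDiff
  have hbs : HasCompactSupport b := b.hasCompactSupport
  obtain ⟨C1, hC1⟩ := hb2.lipschitzWith_of_hasCompactSupport hbs (by norm_num)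
  have hd1 : ContDiff ℝ 1 (fderiv ℝ b) := hb2.fderiv_right (by norm_num)
  obtain ⟨C2, hC2⟩ := hd1.lipschitzWith_of_hasCompactSupport (hbs.fderiv ℝ) (by norm_num)
  refine ⟨b, C1 + C2 + 1, by positivity, fun x => ⟨b.nonneg, b.le_one⟩, fun x hx => ?_,
    fun x hx => ?_, fun x y => ?_, fun x y l h0 h1 => ?_⟩
  · exact b.one_of_mem_closedBall (by simpa [b] using hx)
  · exact b.zero_of_le_dist (by simpa [b] using hx)
  · have := hC1.dist_le_mul x y
    rw [Real.dist_eq, dist_eq_norm] at this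
    refine this.trans ?_
    have h2 : (0:ℝ) ≤ C2 := C2.2
    have h3 : 0 ≤ ‖x - y‖ := norm_nonneg _
    nlinarith [mul_nonneg h2 h3]
  · set g : ℝ → ℝ := fun t => b (y + t • (x - y)) with hg
    have hdiff : Differentiable ℝ b := hb2.differentiable (by norm_num)
    have hg' : ∀ t, HasDerivAt g (fderiv ℝ b (y + t • (x - y)) (x - y)) t := by
      intro t
      have h2 : HasDerivAt (fun t : ℝ => y + t • (x - y)) (x - y) t := by
        simpa using ((hasDerivAt_id t).smul_const (x - y)).const_add y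
      exact (hdiff _).hasFDerivAt.comp_hasDerivAt t h2
    have key := second_diff_1d hg' (M := C2 * ‖x - y‖ ^ 2) ?_ h0 h1
    · have e1 : g 1 = b x := by simp [hg]
      have e0 : g 0 = b y := by simp [hg]
      have el : g l = b (l • x + (1 - l) • y) := by
        simp only [hg]
        congr 1
        rw [smul_sub, sub_smul, one_smul]
        abel
      rw [e1, e0, el] at key
      refine key.trans ?_
      have h2 : (0:ℝ) ≤ C1 := C1.2
      have h5 : 0 ≤ l * (1 - l) := mul_nonneg h0 (by linarith)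
      have h6 : 0 ≤ l * (1 - l) * ‖x - y‖ ^ 2 := by positivity
      nlinarith [mul_nonneg h2 h6]
    · intro s hs t ht
      rw [← sub_apply, ← Real.norm_eq_abs]
      refine (ContinuousLinearMap.le_opNorm _ _).trans ?_
      have h3 := hC2.dist_le_mul (y + s • (x - y)) (y + t • (x - y))
      rw [dist_eq_norm, dist_eq_norm] at h3
      have h4 : (y + s • (x - y)) - (y + t • (x - y)) = (s - t) • (x - y) := by
        rw [sub_smul]; abel
      rw [h4, norm_smul, Real.norm_eq_abs] at h3
      have h5 : |s - t| ≤ 1 := by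
        rw [abs_le]; constructor <;> linarith [hs.1, hs.2, ht.1, ht.2]
      calc _ ≤ (C2 * (|s - t| * ‖x - y‖)) * ‖x - y‖ := by gcongr
        _ ≤ (C2 * (1 * ‖x - y‖)) * ‖x - y‖ := by gcongr
        _ = _ := by ring

/-- One term of the series. -/
theorem term_bound {φ : E → ℝ} {L : ℝ} (hL : 0 < L)
    (hφ01 : ∀ x, 0 ≤ φ x ∧ φ x ≤ 1) (hφ0 : ∀ x, 2 ≤ ‖x‖ → φ x = 0)
    (hφL : ∀ x y, |φ x - φ y| ≤ L * ‖x - y‖)
    (hφ2 : ∀ (x y : E) (l : ℝ), 0 ≤ l → l ≤ 1 →
      |l * φ x + (1 - l) * φ y - φ (l • x + (1 - l) • y)| ≤ L * (l * (1 - l) * ‖x - y‖ ^ 2))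
    {ω : ℝ → ℝ} (hω : Mod ω) (hpos : ∃ t, 0 < t ∧ 0 < ω t) {R c K : ℝ} (hR : 0 < R) (hc : 0 < c)
    (hc1 : c < 1) (hK : 0 < K) (hKc : K * (c * ω R) ≤ ω (c * R)) {ν : E} (hν : ‖ν‖ = 1)
    {x y : E} {l : ℝ} (h0 : 0 ≤ l) (h1 : l ≤ 1)
    (hx : |⟪ν, x⟫| ≤ c / 5 * max ‖x‖ R) (hy : |⟪ν, y⟫| ≤ c / 5 * max ‖y‖ R)
    (hz : |⟪ν, l • x + (1 - l) • y⟫| ≤ c / 5 * max ‖l • x + (1 - l) • y‖ R) :
    |l * ((1 - φ (R⁻¹ • x)) * ⟪ν, x⟫) + (1 - l) * ((1 - φ (R⁻¹ • y)) * ⟪ν, y⟫) -
      (1 - φ (R⁻¹ • (l • x + (1 - l) • y))) * ⟪ν, l • x + (1 - l) • y⟫| * (K * ω R) ≤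
      (3 * L + 2) * (l * (1 - l) * (‖x - y‖ * ω ‖x - y‖)) := by
  set z : E := l • x + (1 - l) • y with hzdef
  set h : ℝ := ‖x - y‖ with hh
  set W : ℝ := ω R with hW
  set a : ℝ := ⟪ν, x⟫ with ha
  set b : ℝ := ⟪ν, y⟫ with hb
  set ζ : ℝ := ⟪ν, z⟫ with hζ
  set X : ℝ := φ (R⁻¹ • x) with hX
  set Y : ℝ := φ (R⁻¹ • y) with hY
  set Z : ℝ := φ (R⁻¹ • z) with hZ
  have hWpos : 0 < W := hω.pos hpos hR
  have hh0 : 0 ≤ h := norm_nonneg _
  have hwh : 0 ≤ ω h := hω.nonneg _ hh0
  have hl1 : 0 ≤ 1 - l := by linarith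
  have hll : 0 ≤ l * (1 - l) := mul_nonneg h0 hl1
  have hζab : ζ = l * a + (1 - l) * b := by
    rw [hζ, hzdef, inner_add_right, inner_smul_right, inner_smul_right]
  have hKc1 : K * c ≤ 1 := by
    have h2 : ω (c * R) ≤ W := hω.mono _ _ (by positivity) (by nlinarith)
    have h3 : K * c * W ≤ 1 * W := by linarith
    exact le_of_mul_le_mul_right h3 hWpos
  have hxz : x - z = (1 - l) • (x - y) := by
    rw [hzdef, smul_sub, sub_smul, sub_smul, one_smul, one_smul]; abel
  have hyz : y - z = -(l • (x - y)) := by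
    rw [hzdef, smul_sub, sub_smul, one_smul]; abel
  have hxzn : ‖x - z‖ = (1 - l) * h := by rw [hxz, norm_smul, Real.norm_of_nonneg hl1]
  have hyzn : ‖y - z‖ = l * h := by rw [hyz, norm_neg, norm_smul, Real.norm_of_nonneg h0]
  have hX01 := hφ01 (R⁻¹ • x)
  have hY01 := hφ01 (R⁻¹ • y)
  have hZ01 := hφ01 (R⁻¹ • z)
  have hlip : ∀ u v : E, |φ (R⁻¹ • u) - φ (R⁻¹ • v)| * R ≤ L * ‖u - v‖ := by
    intro u v
    have h2 := hφL (R⁻¹ • u) (R⁻¹ • v)
    rw [← smul_sub, norm_smul, Real.norm_of_nonneg (inv_nonneg.2 hR.le)] at h2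
    calc _ ≤ (L * (R⁻¹ * ‖u - v‖)) * R := by gcongr
      _ = _ := by field_simp
  have hD2 : |l * X + (1 - l) * Y - Z| * R ^ 2 ≤ L * (l * (1 - l) * h ^ 2) := by
    have h2 := hφ2 (R⁻¹ • x) (R⁻¹ • y) l h0 h1
    rw [← smul_sub, norm_smul, Real.norm_of_nonneg (inv_nonneg.2 hR.le), smul_comm l, smul_comm (1 - l),
      ← smul_add] at h2
    calc _ ≤ (L * (l * (1 - l) * (R⁻¹ * ‖x - y‖) ^ 2)) * R ^ 2 := by gcongr
      _ = _ := by rw [← hh]; field_simp
  have hD1 : |l * X + (1 - l) * Y - Z| * R ≤ 2 * L * (l * (1 - l) * h) := by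
    have h2 : l * X + (1 - l) * Y - Z = l * (X - Z) + (1 - l) * (Y - Z) := by ring
    have h3 := hlip x z
    have h4 := hlip y z
    rw [hxzn] at h3
    rw [hyzn] at h4
    calc |l * X + (1 - l) * Y - Z| * R ≤ (l * |X - Z| + (1 - l) * |Y - Z|) * R := by
          rw [h2]
          gcongr
          refine (abs_add_le _ _).trans ?_
          rw [abs_mul, abs_mul, abs_of_nonneg h0, abs_of_nonneg hl1]
      _ = l * (|X - Z| * R) + (1 - l) * (|Y - Z| * R) := by ring
      _ ≤ l * (L * ((1 - l) * h)) + (1 - l) * (L * (l * h)) := by gcongr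
      _ = _ := by ring
  have F1 : R ≤ h → W ≤ ω h := fun h2 => hω.mono _ _ hR.le h2
  have F2 : h ≤ R → h * W ≤ R * ω h := fun h2 => hω.cross hh0 h2
  -- the first term
  have T1 : |ζ| * |l * X + (1 - l) * Y - Z| * W ≤ (8 * L + 4) * (c / 5) * (l * (1 - l) * (h * ω h)) := by
    rcases lt_or_ge ‖z‖ (4 * R) with hz4 | hz4
    · have h2 : |ζ| ≤ c / 5 * (4 * R) :=
        hz.trans (mul_le_mul_of_nonneg_left (max_le hz4.le (by linarith)) (by positivity))
      have h3 : |l * X + (1 - l) * Y - Z| * W * R ≤ 2 * L * (l * (1 - l) * (h * ω h)) := by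
        rcases le_total h R with hhR | hhR
        · have h4 := F2 hhR
          have h5 : (|l * X + (1 - l) * Y - Z| * W * R) * R ≤ (2 * L * (l * (1 - l) * (h * ω h))) * R := by
            calc (|l * X + (1 - l) * Y - Z| * W * R) * R
                = (|l * X + (1 - l) * Y - Z| * R ^ 2) * W := by ring
              _ ≤ (L * (l * (1 - l) * h ^ 2)) * W := by gcongr
              _ = L * (l * (1 - l)) * h * (h * W) := by ring
              _ ≤ L * (l * (1 - l)) * h * (R * ω h) := by gcongr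
              _ ≤ 2 * (L * (l * (1 - l)) * h * (R * ω h)) := by
                have : 0 ≤ L * (l * (1 - l)) * h * (R * ω h) := by positivity
                linarith
              _ = _ := by ring
          exact le_of_mul_le_mul_right h5 hR
        · have h4 := F1 hhR
          calc |l * X + (1 - l) * Y - Z| * W * R = (|l * X + (1 - l) * Y - Z| * R) * W := by ring
            _ ≤ (2 * L * (l * (1 - l) * h)) * ω h := by gcongr
            _ = _ := by ring
      calc |ζ| * |l * X + (1 - l) * Y - Z| * W ≤ (c / 5 * (4 * R)) * |l * X + (1 - l) * Y - Z| * W := by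
            gcongr
        _ = (c / 5) * 4 * (|l * X + (1 - l) * Y - Z| * W * R) := by ring
        _ ≤ (c / 5) * 4 * (2 * L * (l * (1 - l) * (h * ω h))) := by gcongr
        _ ≤ _ := by
          have : 0 ≤ (c / 5) * (l * (1 - l) * (h * ω h)) := by positivity
          nlinarith
    · have hZ0 : Z = 0 := by
        apply hφ0
        rw [norm_smul, Real.norm_of_nonneg (inv_nonneg.2 hR.le), inv_mul_eq_div, le_div_iff₀ hR]
        linarith
      have h2 : |ζ| ≤ c / 5 * ‖z‖ := by
        refine hz.trans (mul_le_mul_of_nonneg_left (max_le le_rfl (by linarith)) (by positivity))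
      have hDx : l * X * ‖z‖ * W ≤ 2 * (l * (1 - l) * (h * ω h)) := by
        rcases le_or_gt (2 * R) ‖x‖ with hx2 | hx2
        · have : X = 0 := by
            apply hφ0
            rw [norm_smul, Real.norm_of_nonneg (inv_nonneg.2 hR.le), inv_mul_eq_div, le_div_iff₀ hR]
            linarith
          rw [this]
          simp only [mul_zero, zero_mul]
          positivity
        · have h3 : ‖z‖ ≤ ‖x‖ + (1 - l) * h := by
            rw [← hxzn, norm_sub_rev]
            calc ‖z‖ = ‖x + (z - x)‖ := by rw [add_sub_cancel]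
              _ ≤ _ := norm_add_le _ _
          have h4 : ‖z‖ ≤ 2 * ((1 - l) * h) := by linarith
          have h5 : R ≤ h := by nlinarith
          calc l * X * ‖z‖ * W ≤ l * 1 * (2 * ((1 - l) * h)) * ω h := by
                gcongr
                · exact hX01.2
                · exact F1 h5
            _ = _ := by ring
      have hDy : (1 - l) * Y * ‖z‖ * W ≤ 2 * (l * (1 - l) * (h * ω h)) := by
        rcases le_or_gt (2 * R) ‖y‖ with hy2 | hy2
        · have : Y = 0 := by
            apply hφ0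
            rw [norm_smul, Real.norm_of_nonneg (inv_nonneg.2 hR.le), inv_mul_eq_div, le_div_iff₀ hR]
            linarith
          rw [this]
          simp only [mul_zero, zero_mul]
          positivity
        · have h3 : ‖z‖ ≤ ‖y‖ + l * h := by
            rw [← hyzn, norm_sub_rev]
            calc ‖z‖ = ‖y + (z - y)‖ := by rw [add_sub_cancel]
              _ ≤ _ := norm_add_le _ _
          have h4 : ‖z‖ ≤ 2 * (l * h) := by linarith
          have h5 : R ≤ h := by nlinarith
          calc (1 - l) * Y * ‖z‖ * W ≤ (1 - l) * 1 * (2 * (l * h)) * ω h := by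
                gcongr
                · exact hY01.2
                · exact F1 h5
            _ = _ := by ring
      have h3 : |l * X + (1 - l) * Y - Z| = l * X + (1 - l) * Y := by
        rw [hZ0, sub_zero, abs_of_nonneg]
        exact add_nonneg (mul_nonneg h0 hX01.1) (mul_nonneg hl1 hY01.1)
      have h4 : 0 ≤ l * X + (1 - l) * Y := add_nonneg (mul_nonneg h0 hX01.1) (mul_nonneg hl1 hY01.1)
      rw [h3]
      calc |ζ| * (l * X + (1 - l) * Y) * W ≤ (c / 5 * ‖z‖) * (l * X + (1 - l) * Y) * W := by gcongr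
        _ = (c / 5) * (l * X * ‖z‖ * W + (1 - l) * Y * ‖z‖ * W) := by ring
        _ ≤ (c / 5) * (2 * (l * (1 - l) * (h * ω h)) + 2 * (l * (1 - l) * (h * ω h))) := by gcongr
        _ ≤ _ := by
          have : 0 ≤ L * ((c / 5) * (l * (1 - l) * (h * ω h))) := by positivity
          nlinarith
  -- the second term
  have T2 : |a - b| * |X - Y| * (K * W) ≤ (1 + L) * (h * ω h) := by
    have hab1 : |a - b| ≤ h := by
      rw [ha, hb, ← inner_sub_right]
      refine (abs_real_inner_le_norm _ _).trans ?_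
      rw [hν, one_mul]
    by_cases hboth : 2 * R ≤ ‖x‖ ∧ 2 * R ≤ ‖y‖
    · have hX0 : X = 0 := by
        apply hφ0
        rw [norm_smul, Real.norm_of_nonneg (inv_nonneg.2 hR.le), inv_mul_eq_div, le_div_iff₀ hR]
        linarith [hboth.1]
      have hY0 : Y = 0 := by
        apply hφ0
        rw [norm_smul, Real.norm_of_nonneg (inv_nonneg.2 hR.le), inv_mul_eq_div, le_div_iff₀ hR]
        linarith [hboth.2]
      rw [hX0, hY0]
      simp only [sub_zero, abs_zero, mul_zero, zero_mul]
      positivity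
    · have hmax : max ‖x‖ R + max ‖y‖ R ≤ 4 * R + h := by
        have hxy : ‖x‖ ≤ ‖y‖ + h := by
          calc ‖x‖ = ‖y + (x - y)‖ := by rw [add_sub_cancel]
            _ ≤ _ := norm_add_le _ _
        have hyx : ‖y‖ ≤ ‖x‖ + h := by
          rw [hh, norm_sub_rev]
          calc ‖y‖ = ‖x + (y - x)‖ := by rw [add_sub_cancel]
            _ ≤ _ := norm_add_le _ _
        rcases not_and_or.1 hboth with h2 | h2
        · push Not at h2
          have h3 : max ‖x‖ R ≤ 2 * R := max_le h2.le (by linarith)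
          have h4 : max ‖y‖ R ≤ 2 * R + h := max_le (by linarith) (by linarith)
          linarith
        · push Not at h2
          have h3 : max ‖y‖ R ≤ 2 * R := max_le h2.le (by linarith)
          have h4 : max ‖x‖ R ≤ 2 * R + h := max_le (by linarith) (by linarith)
          linarith
      have hab2 : |a - b| ≤ c / 5 * (4 * R + h) := by
        calc |a - b| ≤ |a| + |b| := abs_sub _ _
          _ ≤ c / 5 * max ‖x‖ R + c / 5 * max ‖y‖ R := add_le_add hx hy
          _ = c / 5 * (max ‖x‖ R + max ‖y‖ R) := by ring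
          _ ≤ _ := by gcongr
      rcases le_total R h with hhR | hhR
      · have h2 : |a - b| ≤ c * h := by
          refine hab2.trans ?_
          nlinarith
        have h3 : |X - Y| ≤ 1 := by
          rw [abs_le]; constructor <;> linarith [hX01.1, hX01.2, hY01.1, hY01.2]
        calc |a - b| * |X - Y| * (K * W) ≤ (c * h) * 1 * (K * ω h) := by
              gcongr
              exact F1 hhR
          _ = (K * c) * (h * ω h) := by ring
          _ ≤ 1 * (h * ω h) := by gcongr
          _ ≤ _ := by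
            have : 0 ≤ L * (h * ω h) := by positivity
            nlinarith
      · have h2 : |a - b| ≤ c * R := by
          refine hab2.trans ?_
          nlinarith
        have h3 : |a - b| * ω (c * R) ≤ c * R * ω h := by
          rcases le_total h (c * R) with h4 | h4
          · calc |a - b| * ω (c * R) ≤ h * ω (c * R) := by
                  gcongr
                  exact hω.nonneg _ (by positivity)
              _ ≤ _ := hω.cross hh0 h4
          · calc |a - b| * ω (c * R) ≤ c * R * ω (c * R) := by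
                  gcongr
                  exact hω.nonneg _ (by positivity)
              _ ≤ _ := by
                gcongr
                exact hω.mono _ _ (by positivity) h4
        have h4 : |a - b| * (K * W) ≤ R * ω h := by
          have h5 : c * (|a - b| * (K * W)) ≤ c * (R * ω h) := by
            calc c * (|a - b| * (K * W)) = |a - b| * (K * (c * W)) := by ring
              _ ≤ |a - b| * ω (c * R) := by gcongr
              _ ≤ c * R * ω h := h3
              _ = _ := by ring
          exact le_of_mul_le_mul_left h5 hc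
        have h6 := hlip x y
        calc |a - b| * |X - Y| * (K * W) = |X - Y| * (|a - b| * (K * W)) := by ring
          _ ≤ |X - Y| * (R * ω h) := by gcongr
          _ = (|X - Y| * R) * ω h := by ring
          _ ≤ (L * h) * ω h := by gcongr
          _ ≤ _ := by
            have : 0 ≤ (h * ω h) := by positivity
            nlinarith
  have hid : l * ((1 - X) * a) + (1 - l) * ((1 - Y) * b) - (1 - Z) * ζ =
      -(ζ * (l * X + (1 - l) * Y - Z)) - l * (1 - l) * ((a - b) * (X - Y)) := by
    rw [hζab]; ring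
  rw [hid]
  have hfin : |-(ζ * (l * X + (1 - l) * Y - Z)) - l * (1 - l) * ((a - b) * (X - Y))| ≤
      |ζ| * |l * X + (1 - l) * Y - Z| + l * (1 - l) * (|a - b| * |X - Y|) := by
    refine (abs_sub _ _).trans (le_of_eq ?_)
    rw [abs_neg, abs_mul, abs_mul, abs_of_nonneg hll, abs_mul]
  calc _ ≤ (|ζ| * |l * X + (1 - l) * Y - Z| + l * (1 - l) * (|a - b| * |X - Y|)) * (K * W) := by
        gcongr
    _ = K * (|ζ| * |l * X + (1 - l) * Y - Z| * W) + l * (1 - l) * (|a - b| * |X - Y| * (K * W)) := by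
        ring
    _ ≤ K * ((8 * L + 4) * (c / 5) * (l * (1 - l) * (h * ω h))) +
        l * (1 - l) * ((1 + L) * (h * ω h)) := by gcongr
    _ = (K * c) * ((8 * L + 4) / 5 * (l * (1 - l) * (h * ω h))) +
        (1 + L) * (l * (1 - l) * (h * ω h)) := by ring
    _ ≤ 1 * ((8 * L + 4) / 5 * (l * (1 - l) * (h * ω h))) +
        (1 + L) * (l * (1 - l) * (h * ω h)) := by gcongr
    _ ≤ _ := by
      have h7 : 0 ≤ l * (1 - l) * (h * ω h) := by positivity
      have h8 : 0 ≤ L * (l * (1 - l) * (h * ω h)) := by positivity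
      nlinarith

end Pool.Agent.Q74.Semi
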