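import Mathlib

/-! # Cone-free convex sets are flat at infinity in some direction -/

set_option autoImplicit false

open Set Filter Topology
open scoped RealInnerProductSpace

namespace Pool.Agent.Q74.Semi

variable {E : Type*} [NormedAddCommGroup E] [InnerProductSpace ℝ E] [FiniteDimensional ℝ E]

theorem flat {G : Set E} (hGo : IsOpen G) (hGc : Convex ℝ G)
    (hcf : ¬ ∃ (a : E) (C : Set E), Convex ℝ C ∧ (∀ x ∈ C, ∀ l : ℝ, 0 < l → l • x ∈ C) ∧
      (interior C).Nonempty ∧ ∀ x ∈ C, a + x ∈ G)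
    {a : E} (ha : a ∈ G) :
    ∃ ν : E, ‖ν‖ = 1 ∧ ∀ ε : ℝ, 0 < ε → ∃ R : ℝ, ∀ x, a + x ∈ G → R ≤ ‖x‖ → |⟪ν, x⟫| ≤ ε * ‖x‖ := by
  set C : Set E := {v | ∀ t : ℝ, 0 ≤ t → a + t • v ∈ closure G} with hC
  have hcl : Convex ℝ (closure G) := hGc.closure
  have hCc : Convex ℝ C := by
    intro v hv w hw α β hα hβ hαβ t ht
    have := hcl (hv t ht) (hw t ht) hα hβ hαβ
    convert this using 1
    simp only [smul_add, smul_comm t]
    have : a = α • a + β • a := by rw [← add_smul, hαβ, one_smul]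
    nth_rewrite 1 [this]
    abel
  have hCcone : ∀ x ∈ C, ∀ l : ℝ, 0 < l → l • x ∈ C := by
    intro x hx l hl t ht
    rw [smul_smul]
    exact hx _ (by positivity)
  have hCG : ∀ x ∈ C, a + x ∈ G := by
    intro x hx
    have h2 := hx 2 (by norm_num)
    have h1 : a ∈ interior G := by rwa [hGo.interior_eq]
    have := hGc.openSegment_interior_closure_subset_interior h1 h2
    rw [hGo.interior_eq] at this
    apply this
    refine ⟨1/2, 1/2, by norm_num, by norm_num, by norm_num, ?_⟩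
    rw [smul_add, smul_smul, ← add_assoc, ← add_smul]
    norm_num
  have hint : interior C = ∅ := by
    by_contra hne
    exact hcf ⟨a, C, hCc, hCcone, nonempty_iff_ne_empty.2 hne, hCG⟩
  have h0C : (0 : E) ∈ C := by
    intro t _
    simpa using subset_closure ha
  have hspan : Submodule.span ℝ C ≠ ⊤ := by
    intro htop
    have h1 : affineSpan ℝ C = ⊤ := by
      rw [AffineSubspace.affineSpan_eq_top_iff_vectorSpan_eq_top_of_nonempty ℝ E E ⟨0, h0C⟩,
        vectorSpan_eq_span_vsub_set_right ℝ h0C]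
      simpa using htop
    have := hCc.interior_nonempty_iff_affineSpan_eq_top.2 h1
    rw [hint] at this
    exact not_nonempty_empty this
  have hperp : (Submodule.span ℝ C)ᗮ ≠ ⊥ := by
    intro h
    exact hspan (Submodule.orthogonal_eq_bot_iff.1 h)
  obtain ⟨w, hw, hw0⟩ := Submodule.exists_mem_ne_zero_of_ne_bot hperp
  have hwn : 0 < ‖w‖ := norm_pos_iff.2 hw0
  refine ⟨‖w‖⁻¹ • w, by rw [norm_smul, norm_inv, norm_norm, inv_mul_cancel₀ hwn.ne'], ?_⟩
  set ν : E := ‖w‖⁻¹ • w with hν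
  have hνC : ∀ v ∈ C, ⟪ν, v⟫ = 0 := by
    intro v hv
    have h1 := (Submodule.mem_orthogonal' _ _).1 hw v (Submodule.subset_span hv)
    rw [hν, inner_smul_left, h1, mul_zero]
  intro ε hε
  by_contra hcon
  push Not at hcon
  have hseq : ∀ k : ℕ, ∃ x : E, a + x ∈ G ∧ (k : ℝ) + 1 ≤ ‖x‖ ∧ ε * ‖x‖ < |⟪ν, x⟫| := by
    intro k
    obtain ⟨x, h1, h2, h3⟩ := hcon ((k : ℝ) + 1)
    exact ⟨x, h1, h2, h3⟩
  choose x hxG hxk hxε using hseq
  have hxpos : ∀ k, 0 < ‖x k‖ := fun k => lt_of_lt_of_le (by positivity) (hxk k)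
  have hv : ∀ k, ‖x k‖⁻¹ • x k ∈ Metric.sphere (0 : E) 1 := by
    intro k
    rw [mem_sphere_zero_iff_norm, norm_smul, norm_inv, norm_norm, inv_mul_cancel₀ (hxpos k).ne']
  obtain ⟨v, hvs, φ, hφ, hlim⟩ := (isCompact_sphere (0 : E) 1).tendsto_subseq hv
  have hvC : v ∈ C := by
    intro t ht
    have hl : Tendsto (fun k => a + t • ((fun k => ‖x k‖⁻¹ • x k) ∘ φ) k) atTop (𝓝 (a + t • v)) :=
      (hlim.const_smul t).const_add a
    refine mem_closure_of_tendsto hl ?_
    obtain ⟨N, hN⟩ := exists_nat_ge t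
    filter_upwards [eventually_ge_atTop N] with k hk
    have h1 : t ≤ ‖x (φ k)‖ := by
      have : (N : ℝ) ≤ (φ k : ℝ) := by exact_mod_cast hk.trans (hφ.le_apply)
      linarith [hxk (φ k)]
    have h2 : t / ‖x (φ k)‖ ≤ 1 := (div_le_one (hxpos _)).2 h1
    have h3 : 0 ≤ t / ‖x (φ k)‖ := by positivity
    have := hGc ha (hxG (φ k)) (sub_nonneg.2 h2) h3 (by ring)
    convert this using 1
    simp only [Function.comp, smul_smul, smul_add, sub_smul, one_smul, div_eq_mul_inv]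
    abel
  have h1 := hνC v hvC
  have h2 : Tendsto (fun k => |⟪ν, ((fun k => ‖x k‖⁻¹ • x k) ∘ φ) k⟫|) atTop (𝓝 |⟪ν, v⟫|) :=
    ((continuous_const.inner continuous_id).abs.tendsto v).comp hlim
  rw [h1, abs_zero] at h2
  have h3 : ε ≤ 0 := by
    refine ge_of_tendsto h2 (Eventually.of_forall fun k => ?_)
    simp only [Function.comp, inner_smul_right, abs_mul, abs_inv, abs_norm]
    have := hxε (φ k)
    rw [inv_mul_eq_div, le_div_iff₀ (hxpos _)]
    exact this.le
  linarith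

end Pool.Agent.Q74.Semi
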