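import Mathlib
import Pool.Agent.Q74.Semi.Mod
import Pool.Agent.Q74.Semi.Flat
import Pool.Agent.Q74.Semi.Bump

/-! # The function which is semiconvex and semiconcave but not `C^{1,ω}` -/

set_option autoImplicit false

open Set Filter Topology
open scoped RealInnerProductSpace

namespace Pool.Agent.Q74.Semi

theorem exists_seq {Q : ℕ → ℝ → Prop} (h : ∀ (k : ℕ) (r : ℝ), ∃ R, r ≤ R ∧ Q k R) :
    ∃ R : ℕ → ℝ, 1 ≤ R 0 ∧ (∀ k, 4 * R k ≤ R (k + 1)) ∧ ∀ k, Q k (R k) := by
  choose F hF1 hF2 using h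
  let R : ℕ → ℝ := fun k => Nat.rec (F 0 1) (fun k r => F (k+1) (4 * r)) k
  refine ⟨R, hF1 0 1, fun k => hF1 (k+1) _, fun k => ?_⟩
  cases k with
  | zero => exact hF2 0 1
  | succ k => exact hF2 (k+1) _

variable {E : Type*} [NormedAddCommGroup E] [InnerProductSpace ℝ E] [FiniteDimensional ℝ E]

theorem build {G : Set E} (hGo : IsOpen G) (hGc : Convex ℝ G) (hGu : ¬ Bornology.IsBounded G)
    (hcf : ¬ ∃ (a : E) (C : Set E), Convex ℝ C ∧ (∀ x ∈ C, ∀ l : ℝ, 0 < l → l • x ∈ C) ∧
      (interior C).Nonempty ∧ ∀ x ∈ C, a + x ∈ G)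
    {ω : ℝ → ℝ} (hω : Mod ω) (hpos : ∃ t, 0 < t ∧ 0 < ω t)
    (hsp : ∀ K : ℝ, ∃ c ∈ Ioo (0:ℝ) 1, ∃ᶠ R in atTop, K * (c * ω R) ≤ ω (c * R)) :
    ∃ f : E → ℝ, Continuous f ∧
      (∀ x ∈ G, ∀ y ∈ G, ∀ l ∈ Icc (0:ℝ) 1, |l * f x + (1 - l) * f y - f (l • x + (1 - l) • y)| ≤
        l * (1 - l) * (‖x - y‖ * ω ‖x - y‖)) ∧
      ∀ M : ℝ, ∃ x ∈ G, ∃ y ∈ G, M * ω ‖x - y‖ < ‖fderiv ℝ f x - fderiv ℝ f y‖ := by
  have hne : G.Nonempty := by
    rw [nonempty_iff_ne_empty]
    rintro rfl
    exact hGu Bornology.isBounded_empty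
  obtain ⟨a, ha⟩ := hne
  obtain ⟨ν, hν, hflat⟩ := flat hGo hGc hcf ha
  obtain ⟨φ, L, hL, hφ01, hφ1, hφ0, hφL, hφ2⟩ := exists_bump E
  set K : ℕ → ℝ := fun k => ((k:ℝ) + 1) * ((3 * L + 2) * 2 ^ (k + 1)) with hKdef
  have hKpos : ∀ k, 0 < K k := fun k => by simp only [hKdef]; positivity
  obtain ⟨R, hR0, hR4, hQ⟩ := exists_seq (Q := fun k R => ∃ c, 0 < c ∧ c < 1 ∧
      K k * (c * ω R) ≤ ω (c * R) ∧ ∀ x, a + x ∈ G → |⟪ν, x⟫| ≤ c / 5 * max ‖x‖ R) (by
    intro k r
    obtain ⟨c, hc, hfreq⟩ := hsp (K k)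
    obtain ⟨R0, hR0⟩ := hflat (c / 5) (by linarith [hc.1])
    obtain ⟨R, hR1, hR2⟩ := (hfreq.and_eventually
      (eventually_ge_atTop (max r (R0 / (c / 5))))).exists
    refine ⟨R, (le_max_left _ _).trans hR2, c, hc.1, hc.2, hR1, fun x hx => ?_⟩
    rcases le_or_gt R0 ‖x‖ with h1 | h1
    · refine (hR0 x hx h1).trans ?_
      exact mul_le_mul_of_nonneg_left (le_max_left _ _) (by linarith [hc.1])
    · have h2 : |⟪ν, x⟫| ≤ ‖x‖ := by
        refine (abs_real_inner_le_norm _ _).trans ?_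
        rw [hν, one_mul]
      have h3 : R0 / (c / 5) ≤ R := (le_max_right _ _).trans hR2
      rw [div_le_iff₀ (by linarith [hc.1])] at h3
      calc |⟪ν, x⟫| ≤ R * (c / 5) := by linarith
        _ = c / 5 * R := mul_comm _ _
        _ ≤ _ := mul_le_mul_of_nonneg_left (le_max_right _ _) (by linarith [hc.1]))
  choose c hc0 hc1 hcK hcflat using hQ
  have hRk : ∀ k : ℕ, (k:ℝ) + 1 ≤ R k := by
    intro k
    induction k with
    | zero => simpa using hR0
    | succ k ih =>
      have := hR4 k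
      push_cast
      linarith [(by positivity : (0:ℝ) ≤ (k:ℝ))]
  have hRpos : ∀ k, 0 < R k := fun k => lt_of_lt_of_le (by positivity) (hRk k)
  have hRmono : Monotone R := monotone_nat_of_le_succ fun k => by linarith [hR4 k, hRpos k]
  set A : ℕ → ℝ := fun k => ((k:ℝ) + 1) * ω (R k) with hA
  have hωR : ∀ k, 0 < ω (R k) := fun k => hω.pos hpos (hRpos k)
  have hApos : ∀ k, 0 < A k := fun k => by
    simp only [hA]
    exact mul_pos (by positivity) (hωR k)
  set u : ℕ → E → ℝ := fun k x => A k * ((1 - φ ((R k)⁻¹ • x)) * ⟪ν, x⟫) with hu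
  set F : E → ℝ := fun x => ∑' k, u k x with hF
  have hu0 : ∀ k x, ‖x‖ ≤ R k → u k x = 0 := by
    intro k x hx
    have : φ ((R k)⁻¹ • x) = 1 := by
      apply hφ1
      rw [norm_smul, Real.norm_of_nonneg (inv_nonneg.2 (hRpos k).le), inv_mul_eq_div,
        div_le_one (hRpos k)]
      exact hx
    simp [hu, this]
  have hu1 : ∀ k x, 2 * R k ≤ ‖x‖ → u k x = A k * ⟪ν, x⟫ := by
    intro k x hx
    have : φ ((R k)⁻¹ • x) = 0 := by
      apply hφ0
      rw [norm_smul, Real.norm_of_nonneg (inv_nonneg.2 (hRpos k).le), inv_mul_eq_div,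
        le_div_iff₀ (hRpos k)]
      exact hx
    simp [hu, this]
  have hFm : ∀ m x, ‖x‖ ≤ R m → F x = ∑ k ∈ Finset.range m, u k x := by
    intro m x hx
    refine tsum_eq_sum fun k hk => hu0 k x ?_
    rw [Finset.mem_range, not_lt] at hk
    exact hx.trans (hRmono hk)
  have hφc : Continuous φ := by
    refine (LipschitzWith.of_dist_le_mul (K := ⟨L, hL.le⟩) fun x y => ?_).continuous
    rw [Real.dist_eq, dist_eq_norm]
    exact hφL x y
  have huc : ∀ k, Continuous (u k) := by
    intro k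
    simp only [hu]
    have h1 : Continuous fun x : E => φ ((R k)⁻¹ • x) := hφc.comp (continuous_const_smul _)
    have h2 : Continuous fun x : E => ⟪ν, x⟫ := continuous_const.inner continuous_id
    exact continuous_const.mul ((continuous_const.sub h1).mul h2)
  have hexm : ∀ B : ℝ, ∃ m, B ≤ R m := by
    intro B
    obtain ⟨m, hm⟩ := exists_nat_ge B
    exact ⟨m, hm.trans (by linarith [hRk m])⟩
  have hFc : Continuous F := by
    rw [continuous_iff_continuousAt]
    intro x
    obtain ⟨m, hm⟩ := hexm (‖x‖ + 1)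
    have h1 : Continuous fun x => ∑ k ∈ Finset.range m, u k x :=
      continuous_finsetSum _ fun k _ => huc k
    refine h1.continuousAt.congr ?_
    have h2 : ∀ᶠ y in 𝓝 x, ‖y‖ < ‖x‖ + 1 :=
      continuous_norm.continuousAt.eventually_lt continuousAt_const (by linarith)
    filter_upwards [h2] with y hy
    exact (hFm m y (by linarith)).symm
  -- two-point inequality
  have hineq : ∀ x y : E, a + x ∈ G → a + y ∈ G → ∀ l ∈ Icc (0:ℝ) 1,
      |l * F x + (1 - l) * F y - F (l • x + (1 - l) • y)| ≤ l * (1 - l) * (‖x - y‖ * ω ‖x - y‖) := by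
    intro x y hx hy l hl
    have hz : a + (l • x + (1 - l) • y) ∈ G := by
      have := hGc hx hy hl.1 (sub_nonneg.2 hl.2) (by ring)
      convert this using 1
      rw [smul_add, smul_add, sub_smul, sub_smul, one_smul, one_smul]
      abel
    obtain ⟨m, hm⟩ := hexm (max (max ‖x‖ ‖y‖) ‖l • x + (1 - l) • y‖)
    rw [hFm m x (((le_max_left _ _).trans (le_max_left _ _)).trans hm),
      hFm m y (((le_max_right _ _).trans (le_max_left _ _)).trans hm),
      hFm m _ ((le_max_right _ _).trans hm), Finset.mul_sum, Finset.mul_sum, ← Finset.sum_add_distrib,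
      ← Finset.sum_sub_distrib]
    set Q : ℝ := l * (1 - l) * (‖x - y‖ * ω ‖x - y‖) with hQ
    have hQ0 : 0 ≤ Q :=
      mul_nonneg (mul_nonneg hl.1 (sub_nonneg.2 hl.2)) (mul_nonneg (norm_nonneg _) (hω.nonneg _ (norm_nonneg _)))
    have hterm : ∀ k, |l * u k x + (1 - l) * u k y - u k (l • x + (1 - l) • y)| ≤ Q * (1/2) ^ (k + 1) := by
      intro k
      have key := term_bound hL hφ01 hφ0 hφL hφ2 hω hpos (hRpos k) (hc0 k) (hc1 k) (hKpos k) (hcK k)
        hν hl.1 hl.2 (hcflat k x hx) (hcflat k y hy) (hcflat k _ hz)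
      have h1 : l * u k x + (1 - l) * u k y - u k (l • x + (1 - l) • y) = A k *
          (l * ((1 - φ ((R k)⁻¹ • x)) * ⟪ν, x⟫) + (1 - l) * ((1 - φ ((R k)⁻¹ • y)) * ⟪ν, y⟫) -
            (1 - φ ((R k)⁻¹ • (l • x + (1 - l) • y))) * ⟪ν, l • x + (1 - l) • y⟫) := by
        simp only [hu]; ring
      rw [h1, abs_mul, abs_of_pos (hApos k)]
      set D : ℝ := |l * ((1 - φ ((R k)⁻¹ • x)) * ⟪ν, x⟫) + (1 - l) * ((1 - φ ((R k)⁻¹ • y)) * ⟪ν, y⟫) -
            (1 - φ ((R k)⁻¹ • (l • x + (1 - l) • y))) * ⟪ν, l • x + (1 - l) • y⟫| with hD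
      have h2 : (A k * D) * ((3 * L + 2) * 2 ^ (k + 1)) ≤ (Q * (1/2) ^ (k + 1)) * ((3 * L + 2) * 2 ^ (k + 1)) := by
        calc (A k * D) * ((3 * L + 2) * 2 ^ (k + 1)) = D * (K k * ω (R k)) := by
              simp only [hA, hKdef]; ring
          _ ≤ (3 * L + 2) * Q := key
          _ = (Q * ((1/2) ^ (k + 1) * 2 ^ (k + 1))) * (3 * L + 2) := by
              rw [← mul_pow]; norm_num; ring
          _ = _ := by ring
      exact le_of_mul_le_mul_right h2 (by positivity)
    calc |∑ k ∈ Finset.range m, (l * u k x + (1 - l) * u k y - u k (l • x + (1 - l) • y))|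
        ≤ ∑ k ∈ Finset.range m, |l * u k x + (1 - l) * u k y - u k (l • x + (1 - l) • y)| :=
          Finset.abs_sum_le_sum_abs _ _
      _ ≤ ∑ k ∈ Finset.range m, Q * (1/2) ^ (k + 1) := Finset.sum_le_sum fun k _ => hterm k
      _ = Q * (1 - (1/2) ^ m) := by
          rw [← Finset.mul_sum]
          congr 1
          clear * -
          induction m with
          | zero => simp
          | succ m ih => rw [Finset.sum_range_succ, ih]; ring
      _ ≤ Q * 1 := by
          gcongr
          have : (0:ℝ) ≤ (1/2) ^ m := by positivity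
          linarith
      _ = Q := mul_one _
  refine ⟨fun x => F (x - a), hFc.comp (continuous_id.sub continuous_const), ?_, ?_⟩
  · intro x hx y hy l hl
    have := hineq (x - a) (y - a) (by simpa using hx) (by simpa using hy) l hl
    have e1 : l • (x - a) + (1 - l) • (y - a) = l • x + (1 - l) • y - a := by
      rw [smul_sub, smul_sub, sub_smul, sub_smul, one_smul, one_smul]; abel
    rw [e1, sub_sub_sub_cancel_right] at this
    exact this
  · intro M
    obtain ⟨k, hk⟩ := exists_nat_gt (3 * |M|)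
    -- a point at distance `3 R k`
    have hex : ∃ y ∈ G, 3 * R k < ‖y - a‖ := by
      by_contra hcon
      push Not at hcon
      refine hGu ((Metric.isBounded_iff_subset_closedBall a).2 ⟨3 * R k, fun y hy => ?_⟩)
      rw [Metric.mem_closedBall, dist_eq_norm]
      exact hcon y hy
    obtain ⟨y, hy, hyR⟩ := hex
    have hRk0 := hRpos k
    have hyn : 0 < ‖y - a‖ := by linarith
    set x' : E := (3 * R k / ‖y - a‖) • (y - a) with hx'
    have hx'n : ‖x'‖ = 3 * R k := by
      rw [hx', norm_smul, Real.norm_of_nonneg (by positivity), div_mul_cancel₀ _ hyn.ne']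
    have hx'G : a + x' ∈ G := by
      have h1 : 3 * R k / ‖y - a‖ ≤ 1 := (div_le_one hyn).2 hyR.le
      have h1' : 0 ≤ 3 * R k / ‖y - a‖ := by positivity
      have := hGc ha hy (sub_nonneg.2 h1) h1' (by ring)
      convert this using 1
      rw [hx', sub_smul, one_smul, smul_sub]; abel
    refine ⟨a + x', hx'G, a, ha, ?_⟩
    have hF0 : fderiv ℝ (fun x => F (x - a)) a = 0 := by
      have h1 : (fun x => F (x - a)) =ᶠ[𝓝 a] fun _ => (0:ℝ) := by
        have h2 : ∀ᶠ y in 𝓝 a, ‖y - a‖ < 1 := by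
          have : Continuous fun y : E => ‖y - a‖ := (continuous_id.sub continuous_const).norm
          exact this.continuousAt.eventually_lt continuousAt_const (by simp)
        filter_upwards [h2] with z hz
        rw [hFm 0 _ (hz.le.trans hR0)]
        simp
      rw [h1.fderiv_eq]
      simp
    have hF1 : fderiv ℝ (fun x => F (x - a)) (a + x') =
        (∑ j ∈ Finset.range (k + 1), A j) • innerSL ℝ ν := by
      have h1 : (fun x => F (x - a)) =ᶠ[𝓝 (a + x')]
          fun x => (∑ j ∈ Finset.range (k + 1), A j) * ⟪ν, x - a⟫ := by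
        have hcn : Continuous fun y : E => ‖y - a‖ := (continuous_id.sub continuous_const).norm
        have h2 : ∀ᶠ y in 𝓝 (a + x'), ‖y - a‖ < 4 * R k :=
          hcn.continuousAt.eventually_lt continuousAt_const (by
            simp only [add_sub_cancel_left, hx'n]; linarith)
        have h3 : ∀ᶠ y in 𝓝 (a + x'), 2 * R k < ‖y - a‖ :=
          continuousAt_const.eventually_lt hcn.continuousAt (by
            simp only [add_sub_cancel_left, hx'n]; linarith)
        filter_upwards [h2, h3] with z hz hz'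
        rw [hFm (k + 1) _ (hz.le.trans (hR4 k)), Finset.sum_mul]
        refine Finset.sum_congr rfl fun j hj => hu1 j _ ?_
        have : R j ≤ R k := hRmono (Nat.lt_succ_iff.1 (Finset.mem_range.1 hj))
        linarith
      rw [h1.fderiv_eq]
      have h4 : HasFDerivAt (fun x => (∑ j ∈ Finset.range (k + 1), A j) * ⟪ν, x - a⟫)
          ((∑ j ∈ Finset.range (k + 1), A j) • innerSL ℝ ν) (a + x') := by
        have h5 : HasFDerivAt (fun x : E => innerSL ℝ ν (x - a)) (innerSL ℝ ν) (a + x') := by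
          have h := (innerSL ℝ ν).hasFDerivAt (x := a + x' - a)
          exact h.comp (a + x') ((hasFDerivAt_id (a + x')).sub_const a)
        exact h5.const_mul (∑ j ∈ Finset.range (k + 1), A j)
      exact h4.fderiv
    rw [hF0, hF1, sub_zero, add_sub_cancel_left, hx'n, norm_smul, innerSL_apply_norm, hν, mul_one,
      Real.norm_of_nonneg (Finset.sum_nonneg fun j _ => (hApos j).le)]
    have h6 : A k ≤ ∑ j ∈ Finset.range (k + 1), A j :=
      Finset.single_le_sum (fun j _ => (hApos j).le) (Finset.mem_range.2 (Nat.lt_succ_self k))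
    refine lt_of_lt_of_le ?_ h6
    have h7 : ω (3 * R k) ≤ 3 * ω (R k) := hω.scale (by norm_num) hRk0.le
    have h8 : 0 ≤ ω (3 * R k) := hω.nonneg _ (by positivity)
    calc M * ω (3 * R k) ≤ |M| * ω (3 * R k) := by gcongr; exact le_abs_self M
      _ ≤ |M| * (3 * ω (R k)) := by gcongr
      _ = (3 * |M|) * ω (R k) := by ring
      _ < ((k:ℝ) + 1) * ω (R k) := mul_lt_mul_of_pos_right (by linarith) (hωR k)

end Pool.Agent.Q74.Semi
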