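import Mathlib
import Pool.Agent.Q74.Semi.Mod

/-! # Two-sided inequality implies differentiability with a remainder estimate -/

set_option autoImplicit false

open Set Filter Topology

namespace Pool.Agent.Q74.Semi

variable {E : Type*} [NormedAddCommGroup E] [InnerProductSpace ℝ E] [FiniteDimensional ℝ E]

theorem exists_fderiv {G : Set E} (hGo : IsOpen G) {ω : ℝ → ℝ} (hω : Mod ω)
    {f : E → ℝ}
    (hf : ∀ x ∈ G, ∀ y ∈ G, ∀ l ∈ Icc (0:ℝ) 1, |l * f x + (1 - l) * f y - f (l • x + (1 - l) • y)| ≤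
        l * (1 - l) * (‖x - y‖ * ω ‖x - y‖)) {x : E} (hx : x ∈ G) :
    ∃ D : E →L[ℝ] ℝ, ∀ v, x + v ∈ G → |f (x + v) - f x - D v| ≤ ‖v‖ * ω ‖v‖ := by
  set q : E → ℝ → ℝ := fun v t => (f (x + t • v) - f x) / t with hq
  have hsmall : ∀ v : E, ∀ᶠ t in 𝓝[>] (0:ℝ), x + t • v ∈ G := by
    intro v
    have h1 : Tendsto (fun t : ℝ => x + t • v) (𝓝 0) (𝓝 (x + (0:ℝ) • v)) :=
      (by fun_prop : Continuous fun t : ℝ => x + t • v).tendsto 0
    rw [zero_smul, add_zero] at h1
    exact (h1.eventually (hGo.mem_nhds hx)).filter_mono nhdsWithin_le_nhds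
  have hcomp : ∀ (v : E) (s t : ℝ), 0 < s → s ≤ t → x + t • v ∈ G →
      |q v t - q v s| ≤ ‖v‖ * ω (t * ‖v‖) := by
    intro v s t hs hst ht
    have ht0 : 0 < t := by linarith
    have h1 := hf _ ht x hx (s / t) ⟨by positivity, (div_le_one ht0).2 hst⟩
    have e1 : (s / t) • (x + t • v) + (1 - s / t) • x = x + s • v := by
      rw [smul_add, smul_smul, div_mul_cancel₀ _ ht0.ne', sub_smul, one_smul]; abel
    have e2 : ‖x + t • v - x‖ = t * ‖v‖ := by
      rw [add_sub_cancel_left, norm_smul, Real.norm_of_nonneg ht0.le]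
    rw [e1, e2] at h1
    have e3 : q v t - q v s = (s/t * f (x + t • v) + (1 - s/t) * f x - f (x + s • v)) / s := by
      simp only [hq]; field_simp; ring
    rw [e3, abs_div, abs_of_pos hs, div_le_iff₀ hs]
    refine h1.trans ?_
    have h3 : s / t * (1 - s/t) * (t * ‖v‖ * ω (t * ‖v‖)) = (1 - s/t) * (‖v‖ * ω (t * ‖v‖) * s) := by
      field_simp
    rw [h3]
    have h4 : 0 ≤ ‖v‖ * ω (t * ‖v‖) * s :=
      mul_nonneg (mul_nonneg (norm_nonneg _) (hω.nonneg _ (by positivity))) hs.le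
    have h5 : 0 ≤ s / t := by positivity
    nlinarith [mul_nonneg h5 h4]
  have hωlim : ∀ c : ℝ, 0 ≤ c → Tendsto (fun t => ω (t * c)) (𝓝[>] 0) (𝓝 0) := by
    intro c hc
    rcases eq_or_lt_of_le hc with h0 | h0
    · rw [← h0]
      simp [hω.zero]
    · refine hω.lim.comp (tendsto_nhdsWithin_iff.2 ⟨?_, ?_⟩)
      · have : Tendsto (fun t : ℝ => t * c) (𝓝 0) (𝓝 (0 * c)) := (continuous_mul_const c).tendsto 0
        rw [zero_mul] at this
        exact this.mono_left nhdsWithin_le_nhds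
      · filter_upwards [self_mem_nhdsWithin] with t ht
        exact mul_pos ht h0
  have hex : ∀ v : E, ∃ d : ℝ, Tendsto (q v) (𝓝[>] 0) (𝓝 d) := by
    intro v
    rw [← cauchy_map_iff_exists_tendsto, Metric.cauchy_iff]
    refine ⟨inferInstance, fun ε hε => ?_⟩
    have h1 : Tendsto (fun t => ‖v‖ * ω (t * ‖v‖)) (𝓝[>] 0) (𝓝 (‖v‖ * 0)) :=
      (hωlim ‖v‖ (norm_nonneg _)).const_mul _
    rw [mul_zero] at h1
    have h2 : ∀ᶠ t in 𝓝[>] (0:ℝ), x + t • v ∈ G ∧ ‖v‖ * ω (t * ‖v‖) < ε / 2 ∧ 0 < t := by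
      filter_upwards [hsmall v, h1.eventually_lt_const (by linarith : (0:ℝ) < ε / 2),
        self_mem_nhdsWithin] with t a b c using ⟨a, b, c⟩
    obtain ⟨t0, ht0G, ht0, ht0p⟩ := h2.exists
    refine ⟨q v '' (Ioc 0 t0), image_mem_map (Ioc_mem_nhdsGT ht0p), ?_⟩
    rintro _ ⟨s, hs, rfl⟩ _ ⟨t, ht, rfl⟩
    have a1 := hcomp v s t0 hs.1 hs.2 ht0G
    have a2 := hcomp v t t0 ht.1 ht.2 ht0G
    rw [Real.dist_eq]
    calc |q v s - q v t| = |(q v t0 - q v t) - (q v t0 - q v s)| := by ring_nf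
      _ ≤ |q v t0 - q v t| + |q v t0 - q v s| := abs_sub _ _
      _ < ε := by linarith
  choose D hD using hex
  have hDest : ∀ v, x + v ∈ G → |f (x + v) - f x - D v| ≤ ‖v‖ * ω ‖v‖ := by
    intro v hv
    have h1 : Tendsto (fun s => |q v 1 - q v s|) (𝓝[>] 0) (𝓝 |q v 1 - D v|) :=
      ((hD v).const_sub _).abs
    have h2 : |q v 1 - D v| ≤ ‖v‖ * ω ‖v‖ := by
      refine le_of_tendsto h1 ?_
      filter_upwards [Ioc_mem_nhdsGT (zero_lt_one : (0:ℝ) < 1)] with s hs
      have := hcomp v s 1 hs.1 hs.2 (by simpa using hv)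
      simpa using this
    simpa [hq] using h2
  have hscale : ∀ c : ℝ, 0 < c → Tendsto (fun t : ℝ => c * t) (𝓝[>] 0) (𝓝[>] 0) := by
    intro c hc
    refine tendsto_nhdsWithin_iff.2 ⟨?_, ?_⟩
    · have : Tendsto (fun t : ℝ => c * t) (𝓝 0) (𝓝 (c * 0)) := (continuous_const_mul c).tendsto 0
      rw [mul_zero] at this
      exact this.mono_left nhdsWithin_le_nhds
    · filter_upwards [self_mem_nhdsWithin] with t ht
      exact mul_pos hc ht
  have hadd : ∀ v w, D (v + w) = D v + D w := by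
    intro v w
    have h1 : Tendsto (fun t => q v (2 * t) + q w (2 * t) - q (v + w) t) (𝓝[>] 0)
        (𝓝 (D v + D w - D (v + w))) :=
      (((hD v).comp (hscale 2 two_pos)).add ((hD w).comp (hscale 2 two_pos))).sub (hD (v + w))
    have h2 : Tendsto (fun t => 1 / 2 * ‖v - w‖ * ω (t * (2 * ‖v - w‖))) (𝓝[>] 0) (𝓝 0) := by
      have := (hωlim (2 * ‖v - w‖) (by positivity)).const_mul (1 / 2 * ‖v - w‖)
      rwa [mul_zero] at this
    have h3 : Tendsto (fun t => q v (2 * t) + q w (2 * t) - q (v + w) t) (𝓝[>] 0) (𝓝 0) := by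
      refine squeeze_zero_norm' ?_ h2
      filter_upwards [(hscale 2 two_pos).eventually (hsmall v), (hscale 2 two_pos).eventually (hsmall w),
        self_mem_nhdsWithin] with t hv hw ht
      have ht0 : 0 < t := ht
      have a1 := hf _ hv _ hw (1/2) ⟨by norm_num, by norm_num⟩
      have e1 : (1/2 : ℝ) • (x + (2 * t) • v) + (1 - 1/2 : ℝ) • (x + (2 * t) • w) = x + t • (v + w) := by
        module
      have e2 : ‖x + (2 * t) • v - (x + (2 * t) • w)‖ = t * (2 * ‖v - w‖) := by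
        rw [add_sub_add_left_eq_sub, ← smul_sub, norm_smul, Real.norm_of_nonneg (by positivity)]
        ring
      rw [e1, e2] at a1
      have e3 : q v (2 * t) + q w (2 * t) - q (v + w) t =
          (1/2 * f (x + (2 * t) • v) + (1 - 1/2) * f (x + (2 * t) • w) - f (x + t • (v + w))) / t := by
        simp only [hq]; field_simp; ring
      rw [Real.norm_eq_abs, e3, abs_div, abs_of_pos ht0, div_le_iff₀ ht0]
      refine a1.trans (le_of_eq (by ring))
    have := tendsto_nhds_unique h1 h3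
    linarith
  have hpos : ∀ (c : ℝ) (v : E), 0 < c → D (c • v) = c * D v := by
    intro c v hc
    have h1 : Tendsto (fun t => c * q v (c * t)) (𝓝[>] 0) (𝓝 (c * D v)) :=
      ((hD v).comp (hscale c hc)).const_mul c
    refine tendsto_nhds_unique ((hD (c • v)).congr' ?_) h1
    filter_upwards [self_mem_nhdsWithin] with t ht
    have ht0 : 0 < t := ht
    simp only [hq, smul_smul, mul_comm t c]
    field_simp
  have hzero : D 0 = 0 := by
    have := hadd 0 0
    rw [add_zero] at this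
    linarith
  have hneg : ∀ v, D (-v) = - D v := by
    intro v
    have := hadd v (-v)
    rw [add_neg_cancel, hzero] at this
    linarith
  have hsmul : ∀ (c : ℝ) (v : E), D (c • v) = c * D v := by
    intro c v
    rcases lt_trichotomy c 0 with h | h | h
    · have := hpos (-c) v (by linarith)
      rw [neg_smul, hneg] at this
      linarith
    · rw [h, zero_smul, hzero, zero_mul]
    · exact hpos c v h
  let Dl : E →ₗ[ℝ] ℝ := { toFun := D, map_add' := hadd, map_smul' := fun c v => by simpa using hsmul c v }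
  exact ⟨LinearMap.toContinuousLinearMap Dl, fun v hv => hDest v hv⟩

theorem hasFDerivAt_of_est {G : Set E} (hGo : IsOpen G) {ω : ℝ → ℝ} (hω : Mod ω) {f : E → ℝ}
    {x : E} (hx : x ∈ G) {D : E →L[ℝ] ℝ} (hD : ∀ v, x + v ∈ G → |f (x + v) - f x - D v| ≤ ‖v‖ * ω ‖v‖) :
    HasFDerivAt f D x := by
  rw [hasFDerivAt_iff_isLittleO_nhds_zero]
  rw [Asymptotics.isLittleO_iff]
  intro c hc
  have h1 : ∀ᶠ v in 𝓝 (0 : E), x + v ∈ G := by
    have : Tendsto (fun v : E => x + v) (𝓝 0) (𝓝 (x + 0)) := (continuous_const_add x).tendsto 0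
    rw [add_zero] at this
    exact this.eventually (hGo.mem_nhds hx)
  have h2 : ∀ᶠ t in 𝓝[>] (0:ℝ), ω t < c := hω.lim.eventually_lt_const hc
  rw [eventually_nhdsWithin_iff, Metric.eventually_nhds_iff] at h2
  obtain ⟨δ, hδ, h2⟩ := h2
  have h3 : ∀ᶠ v in 𝓝 (0 : E), ‖v‖ < δ := by
    have := Metric.ball_mem_nhds (0 : E) hδ
    filter_upwards [this] with v hv
    simpa using hv
  filter_upwards [h1, h3] with v hv1 hv3
  rw [Real.norm_eq_abs]
  refine (hD v hv1).trans ?_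
  rcases eq_or_lt_of_le (norm_nonneg v) with h0 | h0
  · rw [← h0]; simp
  · have := h2 (y := ‖v‖) (by simpa using hv3) h0
    rw [mul_comm]
    gcongr

/-- Comparison of two derivatives through a common ball. -/
theorem ball_compare {G : Set E} {ω : ℝ → ℝ} (hω : Mod ω) {f : E → ℝ} {p q m : E} {Dp Dq : E →L[ℝ] ℝ}
    (hDp : ∀ y ∈ G, |f y - f p - Dp (y - p)| ≤ ‖y - p‖ * ω ‖y - p‖)
    (hDq : ∀ y ∈ G, |f y - f q - Dq (y - q)| ≤ ‖y - q‖ * ω ‖y - q‖)
    {ρ T : ℝ} (hρ : 0 < ρ) (hball : ∀ v : E, ‖v‖ < ρ → m + v ∈ G)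
    (hTp : ‖m - p‖ + ρ ≤ T) (hTq : ‖m - q‖ + ρ ≤ T) :
    ‖Dp - Dq‖ ≤ 2 * T * ω T / ρ := by
  have hT : 0 ≤ T := by linarith [norm_nonneg (m - p)]
  have hωT : 0 ≤ ω T := hω.nonneg _ hT
  have key : ∀ v : E, ‖v‖ < ρ → |(Dp - Dq) v| ≤ 2 * T * ω T := by
    intro v hv
    have hest : ∀ w : E, ‖w‖ < ρ → |f (m + w) - f p - Dp (m + w - p)| ≤ T * ω T ∧
        |f (m + w) - f q - Dq (m + w - q)| ≤ T * ω T := by
      intro w hw
      have n1 : ‖m + w - p‖ ≤ T := by
        calc ‖m + w - p‖ = ‖(m - p) + w‖ := by congr 1; abel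
          _ ≤ ‖m - p‖ + ‖w‖ := norm_add_le _ _
          _ ≤ T := by linarith
      have n2 : ‖m + w - q‖ ≤ T := by
        calc ‖m + w - q‖ = ‖(m - q) + w‖ := by congr 1; abel
          _ ≤ ‖m - q‖ + ‖w‖ := norm_add_le _ _
          _ ≤ T := by linarith
      refine ⟨(hDp _ (hball w hw)).trans ?_, (hDq _ (hball w hw)).trans ?_⟩
      · exact mul_le_mul n1 (hω.mono _ _ (norm_nonneg _) n1) (hω.nonneg _ (norm_nonneg _)) hT
      · exact mul_le_mul n2 (hω.mono _ _ (norm_nonneg _) n2) (hω.nonneg _ (norm_nonneg _)) hT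
    obtain ⟨a1, a2⟩ := hest v hv
    obtain ⟨b1, b2⟩ := hest (-v) (by rwa [norm_neg])
    rw [abs_le] at a1 a2 b1 b2 ⊢
    have e1 : Dp (m + v - p) = Dp m + Dp v - Dp p := by rw [map_sub, map_add]
    have e2 : Dq (m + v - q) = Dq m + Dq v - Dq q := by rw [map_sub, map_add]
    have e3 : Dp (m + -v - p) = Dp m - Dp v - Dp p := by rw [map_sub, map_add, map_neg]; ring
    have e4 : Dq (m + -v - q) = Dq m - Dq v - Dq q := by rw [map_sub, map_add, map_neg]; ring
    rw [e1] at a1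
    rw [e2] at a2
    rw [e3] at b1
    rw [e4] at b2
    rw [sub_apply]
    constructor <;> linarith [a1.1, a1.2, a2.1, a2.2, b1.1, b1.2, b2.1, b2.2]
  refine ContinuousLinearMap.opNorm_le_bound _ (by positivity) fun v => ?_
  rcases eq_or_lt_of_le (norm_nonneg v) with h0 | h0
  · have : v = 0 := norm_eq_zero.1 h0.symm
    rw [this]; simp
  · -- scale `v` to norm `r < ρ`, `r → ρ`
    rw [Real.norm_eq_abs, div_mul_eq_mul_div, le_div_iff₀ hρ]
    by_contra hcon
    push Not at hcon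
    have hDv : 0 < |(Dp - Dq) v| := by
      by_contra h
      have : |(Dp - Dq) v| = 0 := le_antisymm (not_lt.1 h) (abs_nonneg _)
      rw [this, zero_mul] at hcon
      have : 0 ≤ 2 * T * ω T * ‖v‖ := by positivity
      linarith
    set r : ℝ := (2 * T * ω T * ‖v‖ / |(Dp - Dq) v| + ρ) / 2 with hr
    have hlt : 2 * T * ω T * ‖v‖ / |(Dp - Dq) v| < ρ := by
      rw [div_lt_iff₀ hDv]; linarith
    have hr0 : 0 ≤ 2 * T * ω T * ‖v‖ / |(Dp - Dq) v| := by positivity
    have hrpos : 0 < r := by rw [hr]; linarith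
    have hrρ : r < ρ := by rw [hr]; linarith
    have hr' : 2 * T * ω T * ‖v‖ / |(Dp - Dq) v| < r := by rw [hr]; linarith
    have := key ((r / ‖v‖) • v) (by
      rw [norm_smul, Real.norm_of_nonneg (by positivity), div_mul_cancel₀ _ h0.ne']; exact hrρ)
    rw [map_smul, smul_eq_mul, abs_mul, abs_of_pos (by positivity : 0 < r / ‖v‖), div_mul_eq_mul_div,
      div_le_iff₀ h0] at this
    rw [div_lt_iff₀ hDv] at hr'
    linarith

end Pool.Agent.Q74.Semi
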