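import Mathlib
import Pool.Agent.Q74.Semi.Mod

/-! # Example moduli -/

set_option autoImplicit false

open Set Filter Topology

namespace Pool.Agent.Q74.Semi

/-- An almost linear concave modulus. -/
noncomputable def om (t : ℝ) : ℝ := ⨅ j : ℕ, ((4:ℝ) ^ j - 1 + t / ((j:ℝ) + 1))

theorem om_low (t : ℝ) (j : ℕ) : min t 0 ≤ (4:ℝ) ^ j - 1 + t / ((j:ℝ) + 1) := by
  have h1 : (1:ℝ) ≤ 4 ^ j := one_le_pow₀ (by norm_num)
  have hj : (1:ℝ) ≤ (j:ℝ) + 1 := by linarith [(Nat.cast_nonneg j : (0:ℝ) ≤ j)]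
  rcases le_total 0 t with h | h
  · have : 0 ≤ t / ((j:ℝ) + 1) := by positivity
    exact (min_le_right _ _).trans (by linarith)
  · refine (min_le_left _ _).trans ?_
    have : t ≤ t / ((j:ℝ) + 1) := by
      rw [le_div_iff₀ (by linarith)]
      nlinarith
    linarith

theorem om_bdd (t : ℝ) : BddBelow (range fun j : ℕ => ((4:ℝ) ^ j - 1 + t / ((j:ℝ) + 1))) :=
  ⟨min t 0, by rintro _ ⟨j, rfl⟩; exact om_low t j⟩

theorem om_le (t : ℝ) (j : ℕ) : om t ≤ (4:ℝ) ^ j - 1 + t / ((j:ℝ) + 1) := ciInf_le (om_bdd t) j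

theorem om_nonneg {t : ℝ} (ht : 0 ≤ t) : 0 ≤ om t :=
  le_ciInf fun j => by simpa [min_eq_right ht] using om_low t j

theorem om_le_self (t : ℝ) : om t ≤ t := by simpa using om_le t 0

theorem om_eq {t : ℝ} (h0 : 0 ≤ t) (h1 : t ≤ 1) : om t = t := by
  refine le_antisymm (om_le_self t) (le_ciInf fun j => ?_)
  have h2 : (1:ℝ) + j * 3 ≤ 4 ^ j := by
    have := one_add_mul_le_pow (show (-2:ℝ) ≤ 3 by norm_num) j
    norm_num at this
    exact this
  have hj0 : (0:ℝ) ≤ j := Nat.cast_nonneg j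
  have h3 : t - t / ((j:ℝ) + 1) = t * (j / ((j:ℝ) + 1)) := by field_simp; ring
  have h4 : (j:ℝ) / ((j:ℝ) + 1) ≤ j := by
    rw [div_le_iff₀ (by positivity)]; nlinarith
  have h5 : t * (j / ((j:ℝ) + 1)) ≤ 1 * j := by gcongr
  linarith

theorem om_mod : Mod om where
  nonneg := fun t ht => om_nonneg ht
  mono := fun s t _ hst => le_ciInf fun j => (om_le s j).trans (by gcongr)
  lim := by
    refine squeeze_zero' ?_ ?_ (tendsto_nhdsWithin_of_tendsto_nhds tendsto_id : Tendsto (fun t : ℝ => t) (𝓝[>] 0) (𝓝 0))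
    · filter_upwards [self_mem_nhdsWithin] with t ht using om_nonneg (le_of_lt ht)
    · exact Eventually.of_forall om_le_self
  conc := by
    refine ⟨convex_Ici 0, fun x _ y _ a b ha hb hab => le_ciInf fun j => ?_⟩
    have h1 := mul_le_mul_of_nonneg_left (om_le x j) ha
    have h2 := mul_le_mul_of_nonneg_left (om_le y j) hb
    simp only [smul_eq_mul]
    calc a * om x + b * om y ≤ _ := add_le_add h1 h2
      _ = (a + b) * ((4:ℝ) ^ j - 1) + (a * x + b * y) / ((j:ℝ) + 1) := by ring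
      _ = _ := by rw [hab, one_mul]

theorem om_div_zero : Tendsto (fun t => om t / t) (𝓝[>] 0) (𝓝 1) := by
  refine tendsto_const_nhds.congr' ?_
  filter_upwards [Ioc_mem_nhdsGT (zero_lt_one : (0:ℝ) < 1)] with t ht
  rw [om_eq ht.1.le ht.2, div_self ht.1.ne']

theorem om_div_top : Tendsto (fun t => om t / t) atTop (𝓝 0) := by
  rw [Metric.tendsto_atTop]
  intro ε hε
  obtain ⟨j, hj⟩ := exists_nat_gt (2 / ε)
  refine ⟨2 * 4 ^ j / ε + 1, fun t ht => ?_⟩
  have ht0 : 0 < t := lt_of_lt_of_le (by positivity) ht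
  rw [Real.dist_eq, sub_zero, abs_of_nonneg (div_nonneg (om_nonneg ht0.le) ht0.le), div_lt_iff₀ ht0]
  have h1 := om_le t j
  have h2 : (4:ℝ) ^ j < ε / 2 * t := by
    have : 2 * 4 ^ j / ε < t := by linarith
    rw [div_lt_iff₀ hε] at this
    linarith
  have h3 : t / ((j:ℝ) + 1) ≤ ε / 2 * t := by
    rw [div_le_iff₀ (by positivity)]
    have : 2 < j * ε := by rwa [div_lt_iff₀ hε] at hj
    nlinarith
  linarith

theorem om_almost_linear {c : ℝ} (hc : c ∈ Ioo (0:ℝ) 1) : ∀ᶠ R in atTop, om (c * R) ≤ 2 * (c * om R) := by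
  obtain ⟨hc0, hc1⟩ := hc
  obtain ⟨j0, hj0⟩ := pow_unbounded_of_one_lt (1 / (2 * c)) (one_lt_two : (1:ℝ) < 2)
  filter_upwards [eventually_ge_atTop (4 ^ j0 * ((j0:ℝ) + 1) / c)] with R hR
  have hR0 : 0 ≤ R := le_trans (by positivity) hR
  have h1 : ∀ j : ℕ, om (c * R) / (2 * c) ≤ (4:ℝ) ^ j - 1 + R / ((j:ℝ) + 1) := by
    intro j
    rw [div_le_iff₀ (by positivity)]
    rcases lt_or_ge j j0 with hj | hj
    · refine (om_le _ j).trans ?_
      have h2 : (4:ℝ) ^ j ≤ 4 ^ j0 := pow_le_pow_right₀ (by norm_num) hj.le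
      have h3 : (1:ℝ) ≤ 4 ^ j := one_le_pow₀ (by norm_num)
      have h4 : (4:ℝ) ^ j0 ≤ c * R / ((j:ℝ) + 1) := by
        rw [le_div_iff₀ (by positivity)]
        rw [div_le_iff₀ hc0] at hR
        have : (j:ℝ) ≤ j0 := by exact_mod_cast hj.le
        calc (4:ℝ) ^ j0 * (j + 1) ≤ 4 ^ j0 * (j0 + 1) := by gcongr
          _ ≤ _ := by linarith
      have h5 : (R / ((j:ℝ) + 1)) * (2 * c) = 2 * (c * R / ((j:ℝ) + 1)) := by ring
      nlinarith
    · refine (om_le _ (j / 2)).trans ?_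
      have h2 : (4:ℝ) ^ (j / 2) ≤ 2 ^ j := by
        rw [show (4:ℝ) = 2 ^ 2 by norm_num, ← pow_mul]
        exact pow_le_pow_right₀ (by norm_num) (Nat.mul_div_le j 2)
      have h3 : (4:ℝ) ^ j = 2 ^ j * 2 ^ j := by rw [← mul_pow]; norm_num
      have h4 : (1:ℝ) ≤ 2 ^ j := one_le_pow₀ (by norm_num)
      have h5 : (2:ℝ) ^ j0 ≤ 2 ^ j := pow_le_pow_right₀ (by norm_num) hj
      have h6 : 1 ≤ 2 ^ j * (2 * c) := by
        rw [div_lt_iff₀ (by positivity)] at hj0
        nlinarith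
      have h7 : c * R / (((j / 2 : ℕ) : ℝ) + 1) ≤ R / ((j:ℝ) + 1) * (2 * c) := by
        have h8 : ((j:ℝ) + 1) / 2 ≤ ((j / 2 : ℕ) : ℝ) + 1 := by
          have : j + 1 ≤ 2 * (j / 2 + 1) := by omega
          have : (j:ℝ) + 1 ≤ 2 * (((j / 2 : ℕ) : ℝ) + 1) := by exact_mod_cast this
          linarith
        calc c * R / (((j / 2 : ℕ) : ℝ) + 1) ≤ c * R / (((j:ℝ) + 1) / 2) := by gcongr
          _ = _ := by field_simp
      have h9 : (2:ℝ) ^ j - 1 ≤ (4 ^ j - 1) * (2 * c) := by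
        rw [h3]
        have : (2 ^ j * 2 ^ j - 1) * (2 * c) = (2 ^ j - 1) * (2 ^ j * (2 * c) + 2 * c) := by ring
        rw [this]
        nlinarith
      rw [add_mul]
      linarith
  have h2 : om (c * R) / (2 * c) ≤ om R := le_ciInf h1
  rw [div_le_iff₀ (by positivity)] at h2
  linarith

theorem rpow_mod {α : ℝ} (h0 : 0 < α) (h1 : α < 1) : Mod (fun t => t ^ α) where
  nonneg := fun t ht => Real.rpow_nonneg ht _
  mono := fun s t hs hst => Real.rpow_le_rpow hs hst h0.le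
  lim := by
    have : Tendsto (fun t : ℝ => t ^ α) (𝓝 0) (𝓝 (0 ^ α)) :=
      (Real.continuousAt_rpow_const 0 α (Or.inr h0.le))
    rw [Real.zero_rpow h0.ne'] at this
    exact this.mono_left nhdsWithin_le_nhds
  conc := Real.concaveOn_rpow h0.le h1.le

theorem rpow_spread {α : ℝ} (h1 : α < 1) (K : ℝ) :
    ∃ c ∈ Ioo (0:ℝ) 1, ∃ᶠ R in atTop, K * (c * R ^ α) ≤ (c * R) ^ α := by
  have hM : 1 < max K 2 := lt_of_lt_of_le one_lt_two (le_max_right _ _)
  have hM0 : 0 < max K 2 := by linarith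
  have hexp : (0:ℝ) < 1 / (1 - α) := by
    have : 0 < 1 - α := by linarith
    positivity
  refine ⟨(max K 2) ^ (-(1 / (1 - α))), ⟨Real.rpow_pos_of_pos hM0 _, ?_⟩, ?_⟩
  · exact Real.rpow_lt_one_of_one_lt_of_neg hM (by linarith)
  · refine Eventually.frequently ?_
    filter_upwards [eventually_ge_atTop (0:ℝ)] with R hR
    set c : ℝ := (max K 2) ^ (-(1 / (1 - α))) with hc
    have hc0 : 0 < c := Real.rpow_pos_of_pos hM0 _
    rw [Real.mul_rpow hc0.le hR]
    have h2 : c ^ α = max K 2 * c := by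
      have h3 : c ^ (α - 1) = max K 2 := by
        rw [hc, ← Real.rpow_mul hM0.le]
        have : -(1 / (1 - α)) * (α - 1) = 1 := by
          have : (1 - α) ≠ 0 := by linarith
          field_simp
          ring
        rw [this, Real.rpow_one]
      rw [← h3]
      nth_rewrite 3 [← Real.rpow_one c]
      rw [← Real.rpow_add hc0]
      congr 1
      ring
    rw [h2]
    have h4 : 0 ≤ R ^ α := Real.rpow_nonneg hR _
    calc K * (c * R ^ α) ≤ max K 2 * (c * R ^ α) := by gcongr; exact le_max_left _ _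
      _ = _ := by ring

end Pool.Agent.Q74.Semi
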