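import Mathlib
import Pool.Agent.Q74.Semi.Mod

/-! # The profile of the thin set, for moduli which are almost linear at infinity -/

set_option autoImplicit false

open Set Filter Topology

namespace Pool.Agent.Q74.Semi

theorem exists_profile {ω : ℝ → ℝ} (hω : Mod ω) {K : ℝ} (hK : 1 ≤ K)
    (hns : ∀ c ∈ Ioo (0:ℝ) 1, ∀ᶠ R in atTop, ω (c * R) ≤ K * (c * ω R)) :
    ∃ γ : ℝ → ℝ, ConcaveOn ℝ univ γ ∧ (∀ u v, γ u ≤ γ v + |u - v|) ∧ (∀ u v, u ≤ v → γ u ≤ γ v) ∧
      (∀ u, γ u ≤ u) ∧ (∀ u, min u 1 ≤ γ u) ∧ (∀ c : ℝ, 0 < c → ∃ B, ∀ u, 0 ≤ u → γ u ≤ B + c * u) ∧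
      (∀ u, 0 < u → u * ω (γ u) ≤ 2 * K * (γ u * ω u)) := by
  let ι : Type := {p : ℝ × ℝ // 1 ≤ p.1 ∧ 0 < p.2 ∧ p.2 ≤ 1 ∧ ∀ R, p.1 ≤ R → ω (p.2 * R) ≤ K * (p.2 * ω R)}
  have : Nonempty ι := ⟨⟨(1, 1), le_rfl, one_pos, le_rfl, fun R hR => by
    have : 0 ≤ ω R := hω.nonneg _ (zero_le_one.trans hR)
    simp only [one_mul]
    nlinarith⟩⟩
  let g1 : ℝ → ℝ := fun u => ⨅ i : ι, (i.1.1 + i.1.2 * u)
  have hlow : ∀ (u : ℝ) (i : ι), min u 1 ≤ i.1.1 + i.1.2 * u := by
    intro u i
    obtain ⟨⟨B, c⟩, h1, h2, h3, h4⟩ := i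
    simp only at h1 h2 h3 ⊢
    rcases le_total 0 u with hu | hu
    · have : 0 ≤ c * u := by positivity
      exact (min_le_right _ _).trans (by linarith)
    · exact (min_le_left _ _).trans (by nlinarith)
  have hbdd : ∀ u, BddBelow (range fun i : ι => (i.1.1 + i.1.2 * u)) := fun u =>
    ⟨min u 1, by rintro _ ⟨i, rfl⟩; exact hlow u i⟩
  have hle : ∀ u (i : ι), g1 u ≤ i.1.1 + i.1.2 * u := fun u i => ciInf_le (hbdd u) i
  have hg1low : ∀ u, min u 1 ≤ g1 u := fun u => le_ciInf fun i => hlow u i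
  have hg1conc : ConcaveOn ℝ univ g1 := by
    refine ⟨convex_univ, fun x _ y _ a b ha hb hab => le_ciInf fun i => ?_⟩
    have h1 := mul_le_mul_of_nonneg_left (hle x i) ha
    have h2 := mul_le_mul_of_nonneg_left (hle y i) hb
    simp only [smul_eq_mul]
    calc a * g1 x + b * g1 y ≤ a * (i.1.1 + i.1.2 * x) + b * (i.1.1 + i.1.2 * y) := add_le_add h1 h2
      _ = (a + b) * i.1.1 + i.1.2 * (a * x + b * y) := by ring
      _ = _ := by rw [hab, one_mul]
  have hg1lip : ∀ u v, g1 u ≤ g1 v + |u - v| := by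
    intro u v
    rw [← sub_le_iff_le_add]
    refine le_ciInf fun i => ?_
    have h1 := hle u i
    have h2 : i.1.2 * (u - v) ≤ |u - v| := by
      have a1 := le_abs_self (u - v)
      have a2 := abs_nonneg (u - v)
      have a3 := i.2.2.1
      have a4 := i.2.2.2.1
      calc i.1.2 * (u - v) ≤ i.1.2 * |u - v| := by gcongr
        _ ≤ 1 * |u - v| := by gcongr
        _ = _ := one_mul _
    linarith
  have hg1mono : ∀ u v, u ≤ v → g1 u ≤ g1 v := by
    intro u v huv
    refine le_ciInf fun i => (hle u i).trans ?_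
    have a3 := i.2.2.1
    gcongr
  refine ⟨fun u => min u (g1 u), ?_, ?_, ?_, ?_, ?_, ?_, ?_⟩
  · exact (concaveOn_id convex_univ).inf hg1conc
  · intro u v
    have h1 := hg1lip u v
    have h2 := le_abs_self (u - v)
    have h3 := min_le_left u (g1 u)
    have h4 := min_le_right u (g1 u)
    rcases min_choice v (g1 v) with h | h
    · simp only [h]; linarith
    · simp only [h]; linarith
  · intro u v huv
    exact min_le_min huv (hg1mono u v huv)
  · intro u
    exact min_le_left _ _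
  · intro u
    exact le_min (min_le_left _ _) (hg1low u)
  · intro c hc
    rcases le_or_gt 1 c with h1 | h1
    · refine ⟨0, fun u hu => (min_le_left _ _).trans ?_⟩
      nlinarith
    · obtain ⟨R0, hR0⟩ := eventually_atTop.1 (hns c ⟨hc, h1⟩)
      exact ⟨max R0 1, fun u _ => (min_le_right _ _).trans
        (hle u ⟨(max R0 1, c), le_max_right _ _, hc, h1.le, fun R hR => hR0 R ((le_max_left _ _).trans hR)⟩)⟩
  · intro u hu
    have hωu : 0 ≤ ω u := hω.nonneg _ hu.le
    simp only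
    rcases le_or_gt u (g1 u) with h | h
    · rw [min_eq_left h]
      have : 0 ≤ u * ω u := by positivity
      nlinarith
    · rw [min_eq_right h.le]
      set g : ℝ := g1 u with hg
      have hgpos : 0 < g := lt_of_lt_of_le (lt_min hu one_pos) (hg1low u)
      have hgu : 0 ≤ g * ω u := by positivity
      obtain ⟨i, hi⟩ := exists_lt_of_ciInf_lt (show (⨅ i : ι, (i.1.1 + i.1.2 * u)) < 2 * g by
        show g < 2 * g
        linarith)
      obtain ⟨⟨B, c⟩, h1, h2, h3, h4⟩ := i
      simp only at h1 h2 h3 h4 hi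
      rcases le_or_gt B u with hBu | hBu
      · have h5 := h4 u hBu
        have hcu : c * u ≤ 2 * g := by linarith
        rcases le_or_gt g (c * u) with h6 | h6
        · have h7 : ω g ≤ K * (c * ω u) := (hω.mono _ _ hgpos.le h6).trans h5
          calc u * ω g ≤ u * (K * (c * ω u)) := by gcongr
            _ = K * ω u * (c * u) := by ring
            _ ≤ K * ω u * (2 * g) := by gcongr
            _ = _ := by ring
        · have h7 := hω.cross (by positivity : 0 ≤ c * u) h6.le
          have h8 : c * (u * ω g) ≤ c * (K * (g * ω u)) := by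
            calc c * (u * ω g) = c * u * ω g := by ring
              _ ≤ g * ω (c * u) := h7
              _ ≤ g * (K * (c * ω u)) := by gcongr
              _ = _ := by ring
          have h9 := le_of_mul_le_mul_left h8 h2
          nlinarith
      · have h5 : u ≤ 2 * g := by
          have : 0 ≤ c * u := by positivity
          linarith
        have h6 : ω g ≤ ω u := hω.mono _ _ hgpos.le h.le
        have h7 : 0 ≤ ω g := hω.nonneg _ hgpos.le
        calc u * ω g ≤ (2 * g) * ω u := by gcongr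
          _ = 2 * (g * ω u) := by ring
          _ ≤ 2 * K * (g * ω u) := by nlinarith

theorem potential {ω : ℝ → ℝ} (hω : Mod ω) {K : ℝ} (hK : 1 ≤ K)
    {c s₀ : ℝ} (hc : 0 < c) (hc1 : c < 1) (hs₀ : 0 < s₀) (hhalf : ∀ R, s₀ ≤ R → 2 * ω (c * R) ≤ ω R)
    {γ : ℝ → ℝ} (hγle : ∀ u, γ u ≤ u) (hγlow : ∀ u, min u 1 ≤ γ u)
    (hγω : ∀ u, 0 < u → u * ω (γ u) ≤ 2 * K * (γ u * ω u)) {a : ℝ} (ha : s₀ ≤ a) :
    ω (γ a) ≤ 4 * K / c * (ω (a + γ a) - ω a) := by
  have ha0 : 0 < a := hs₀.trans_le ha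
  have hg : 0 < γ a := lt_of_lt_of_le (lt_min ha0 one_pos) (hγlow a)
  set g : ℝ := γ a with hgdef
  set a' : ℝ := a + g with ha'
  have ha'pos : 0 < a' := by linarith
  have h1 : a' < a' / c := by
    rw [lt_div_iff₀ hc]; nlinarith
  have h2 := hω.conc.slope_anti_adjacent (x := a) (y := a') (z := a' / c) (mem_Ici.2 ha0.le)
    (mem_Ici.2 (by positivity)) (by linarith) h1
  have h3 := hhalf (a' / c) (by linarith)
  rw [mul_div_cancel₀ _ hc.ne'] at h3
  have h4 : 0 ≤ ω a' := hω.nonneg _ ha'pos.le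
  have h5 : ω a ≤ ω a' := hω.mono _ _ ha0.le (by linarith)
  have h6 : a' ≤ 2 * a := by linarith [hγle a]
  have hωa : 0 ≤ ω a := hω.nonneg _ ha0.le
  have h7 : c * ω a' / a' ≤ (ω a' - ω a) / g := by
    calc c * ω a' / a' = ω a' / (a' / c) := by field_simp
      _ ≤ ω a' / (a' / c - a') := by
          have : 0 < a' / c - a' := by linarith
          gcongr
          linarith
      _ ≤ (ω (a' / c) - ω a') / (a' / c - a') := by
          have : 0 < a' / c - a' := by linarith
          gcongr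
          linarith
      _ ≤ (ω a' - ω a) / (a' - a) := h2
      _ = _ := by rw [ha', add_sub_cancel_left]
  have h8 : c * ω a * g ≤ (ω a' - ω a) * (2 * a) := by
    rw [div_le_div_iff₀ ha'pos hg] at h7
    calc c * ω a * g ≤ c * ω a' * g := by gcongr
      _ ≤ (ω a' - ω a) * a' := h7
      _ ≤ (ω a' - ω a) * (2 * a) := by
          have : 0 ≤ ω a' - ω a := by linarith
          gcongr
  have h9 := hγω a ha0
  have h10 : a * c * ω g ≤ a * c * (4 * K / c * (ω a' - ω a)) := by
    calc a * c * ω g = c * (a * ω g) := by ring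
      _ ≤ c * (2 * K * (g * ω a)) := by gcongr
      _ = 2 * K * (c * ω a * g) := by ring
      _ ≤ 2 * K * ((ω a' - ω a) * (2 * a)) := by gcongr
      _ = _ := by field_simp; ring
  exact le_of_mul_le_mul_left h10 (by positivity)

end Pool.Agent.Q74.Semi
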