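import Mathlib
import Pool.Agent.Q74.Semi.Mod
import Pool.Agent.Q74.Semi.Diff
import Pool.Agent.Q74.Semi.Profile

/-! # The thin set of revolution -/

set_option autoImplicit false

open Set Filter Topology
open scoped RealInnerProductSpace

namespace Pool.Agent.Q74.Semi

variable {E : Type*} [NormedAddCommGroup E] [InnerProductSpace ℝ E]

/-- The part of `x` orthogonal to `e`. -/
def perp (e x : E) : E := x - ⟪e, x⟫ • e

theorem perp_add (e x y : E) : perp e (x + y) = perp e x + perp e y := by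
  simp only [perp, inner_add_right, add_smul]; abel

theorem perp_smul (e : E) (c : ℝ) (x : E) : perp e (c • x) = c • perp e x := by
  simp only [perp, inner_smul_right, smul_sub, smul_smul]

theorem perp_self {e : E} (he : ‖e‖ = 1) : perp e e = 0 := by
  simp [perp, real_inner_self_eq_norm_sq, he]

theorem norm_perp_le {e : E} (he : ‖e‖ = 1) (x : E) : ‖perp e x‖ ≤ ‖x‖ := by
  have h1 : ‖perp e x‖ ^ 2 = ‖x‖ ^ 2 - ⟪e, x⟫ ^ 2 := by
    rw [perp, norm_sub_sq_real, norm_smul, he, mul_one, Real.norm_eq_abs, sq_abs, inner_smul_right,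
      real_inner_comm]
    ring
  have h2 : ‖perp e x‖ ^ 2 ≤ ‖x‖ ^ 2 := by rw [h1]; nlinarith [sq_nonneg ⟪e, x⟫]
  exact le_of_sq_le_sq h2 (norm_nonneg _)

theorem abs_inner_le {e : E} (he : ‖e‖ = 1) (x : E) : |⟪e, x⟫| ≤ ‖x‖ := by
  refine (abs_real_inner_le_norm _ _).trans ?_
  rw [he, one_mul]

/-- The set of revolution with profile `γ`. -/
def thin (e : E) (γ : ℝ → ℝ) : Set E := {x | ‖perp e x‖ < γ ⟪e, x⟫}

theorem isOpen_thin {e : E} {γ : ℝ → ℝ} (hγ : Continuous γ) : IsOpen (thin e γ) := by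
  have h1 : Continuous fun x : E => ‖perp e x‖ := by unfold perp; fun_prop
  have h2 : Continuous fun x : E => γ ⟪e, x⟫ := hγ.comp (by fun_prop)
  exact isOpen_lt h1 h2

theorem convex_thin {e : E} {γ : ℝ → ℝ} (hγ : ConcaveOn ℝ univ γ) : Convex ℝ (thin e γ) := by
  intro x hx y hy a b ha hb hab
  simp only [thin, mem_setOf_eq] at hx hy ⊢
  rw [perp_add, perp_smul, perp_smul, inner_add_right, inner_smul_right, inner_smul_right]
  have h1 := hγ.2 (mem_univ ⟪e, x⟫) (mem_univ ⟪e, y⟫) ha hb hab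
  simp only [smul_eq_mul] at h1
  refine lt_of_lt_of_le ?_ h1
  refine (norm_add_le _ _).trans_lt ?_
  rw [norm_smul, norm_smul, Real.norm_of_nonneg ha, Real.norm_of_nonneg hb]
  rcases eq_or_lt_of_le ha with h0 | h0
  · have : b = 1 := by linarith
    rw [← h0, this]; simpa using hy
  · have h2 := mul_lt_mul_of_pos_left hx h0
    have h3 := mul_le_mul_of_nonneg_left hy.le hb
    linarith

theorem axis_mem {e : E} (he : ‖e‖ = 1) {γ : ℝ → ℝ} (hγlow : ∀ u, min u 1 ≤ γ u) {s : ℝ} (hs : 0 < s) :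
    s • e ∈ thin e γ := by
  simp only [thin, mem_setOf_eq, perp_smul, perp_self he, smul_zero, norm_zero, inner_smul_right,
    real_inner_self_eq_norm_sq, he]
  have := hγlow s
  simp only [one_pow, mul_one]
  exact lt_of_lt_of_le (lt_min hs one_pos) this

theorem unbounded_thin {e : E} (he : ‖e‖ = 1) {γ : ℝ → ℝ} (hγlow : ∀ u, min u 1 ≤ γ u) :
    ¬ Bornology.IsBounded (thin e γ) := by
  intro h
  obtain ⟨C, hC⟩ := isBounded_iff_forall_norm_le.1 h
  have := hC ((|C| + 1) • e) (axis_mem he hγlow (by positivity))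
  rw [norm_smul, he, mul_one, Real.norm_of_nonneg (by positivity)] at this
  linarith [le_abs_self C]

theorem coneFree_thin {e w : E} (he : ‖e‖ = 1) (hw : ‖w‖ = 1) (hew : ⟪e, w⟫ = 0) {γ : ℝ → ℝ}
    (hγle : ∀ u, γ u ≤ u) (hγmono : ∀ u v, u ≤ v → γ u ≤ γ v)
    (hγsub : ∀ c : ℝ, 0 < c → ∃ B, ∀ u, 0 ≤ u → γ u ≤ B + c * u) :
    ¬ ∃ (a : E) (C : Set E), Convex ℝ C ∧ (∀ x ∈ C, ∀ l : ℝ, 0 < l → l • x ∈ C) ∧
      (interior C).Nonempty ∧ ∀ x ∈ C, a + x ∈ thin e γ := by
  rintro ⟨a, C, -, hcone, ⟨v, hv⟩, hG⟩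
  obtain ⟨δ, hδ, hball⟩ := Metric.isOpen_iff.1 isOpen_interior v hv
  have hmem : ∀ s : ℝ, |s| < δ → v + s • w ∈ C := by
    intro s hs
    apply interior_subset (hball _)
    rw [Metric.mem_ball, dist_eq_norm, add_sub_cancel_left, norm_smul, hw, mul_one]
    exact hs
  have hperpw : perp e w = w := by simp [perp, hew]
  set H : ℝ := |⟪e, a⟫| with hH
  set V : ℝ := |⟪e, v⟫| with hV
  have key : ∀ t : ℝ, 0 < t → t * δ ≤ 2 * γ (H + t * V) := by
    intro t ht
    have h1 := hG _ (hcone _ (hmem (δ / 2) (by rw [abs_of_pos (by positivity)]; linarith)) t ht)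
    have h2 := hG _ (hcone _ (hmem (-(δ / 2)) (by rw [abs_neg, abs_of_pos (by positivity)]; linarith)) t ht)
    simp only [thin, mem_setOf_eq, perp_add, perp_smul, hperpw, inner_add_right, inner_smul_right, hew,
      mul_zero, add_zero] at h1 h2
    have h3 : γ (⟪e, a⟫ + t * ⟪e, v⟫) ≤ γ (H + t * V) := by
      apply hγmono
      gcongr
      · exact le_abs_self _
      · exact le_abs_self _
    have h4 : ‖(perp e a + t • (perp e v + (δ / 2) • w)) - (perp e a + t • (perp e v + (-(δ / 2)) • w))‖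
        = t * δ := by
      have : (perp e a + t • (perp e v + (δ / 2) • w)) - (perp e a + t • (perp e v + (-(δ / 2)) • w)) =
          (t * δ) • w := by module
      rw [this, norm_smul, hw, mul_one, Real.norm_of_nonneg (by positivity)]
    have h5 := norm_sub_le (perp e a + t • (perp e v + (δ / 2) • w))
      (perp e a + t • (perp e v + (-(δ / 2)) • w))
    linarith
  obtain ⟨B, hB⟩ := hγsub (δ / (4 * (V + 1))) (by positivity)
  have hV0 : 0 ≤ V := abs_nonneg _
  have hH0 : 0 ≤ H := abs_nonneg _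
  set c : ℝ := δ / (4 * (V + 1)) with hc
  have hcV : c * V ≤ δ / 4 := by
    rw [hc, div_mul_eq_mul_div, div_le_div_iff₀ (by positivity) (by norm_num)]
    nlinarith
  have hcpos : 0 < c := by positivity
  set t : ℝ := (4 * |B| + 4 * c * H + 1) / δ with ht
  have htpos : 0 < t := by positivity
  have h1 := key t htpos
  have h2 := hB (H + t * V) (by positivity)
  have h3 : t * δ = 4 * |B| + 4 * c * H + 1 := by rw [ht]; field_simp
  have h4 : t * (c * V) ≤ t * (δ / 4) := by gcongr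
  have h5 := le_abs_self B
  nlinarith

/-- Balls in the thin set. -/
theorem ball_mem {e : E} (he : ‖e‖ = 1) {γ : ℝ → ℝ} (hγlip : ∀ u v, γ u ≤ γ v + |u - v|) {s : ℝ}
    {v : E} (hv : ‖v‖ < γ s / 2) : s • e + v ∈ thin e γ := by
  simp only [thin, mem_setOf_eq, perp_add, perp_smul, perp_self he, smul_zero, zero_add, inner_add_right,
    inner_smul_right, real_inner_self_eq_norm_sq, he, one_pow, mul_one]
  have h1 := hγlip s (s + ⟪e, v⟫)
  have h2 : |s - (s + ⟪e, v⟫)| = |⟪e, v⟫| := by rw [sub_add_cancel_left, abs_neg]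
  rw [h2] at h1
  have h3 := abs_inner_le he v
  have h4 := norm_perp_le he v
  linarith

theorem ball_mem' {e : E} (he : ‖e‖ = 1) {γ : ℝ → ℝ} (hγconc : ConcaveOn ℝ univ γ)
    (hγlip : ∀ u v, γ u ≤ γ v + |u - v|) {s : ℝ} {p : E} (hp : p ∈ thin e γ) {θ : ℝ} (h0 : 0 < θ)
    (h1 : θ ≤ 1) {v : E} (hv : ‖v‖ < θ * (γ s / 2)) : p + θ • (s • e - p) + v ∈ thin e γ := by
  have h2 : s • e + θ⁻¹ • v ∈ thin e γ := by
    apply ball_mem he hγlip
    rw [norm_smul, norm_inv, Real.norm_of_nonneg h0.le, inv_mul_eq_div, div_lt_iff₀ h0]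
    linarith
  have h3 := convex_thin hγconc hp h2 (sub_nonneg.2 h1) h0.le (by ring)
  convert h3 using 1
  rw [smul_add θ, smul_smul θ θ⁻¹, mul_inv_cancel₀ h0.ne', one_smul, sub_smul, one_smul, smul_sub]
  abel

end Pool.Agent.Q74.Semi
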