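import Mathlib
import Pool.Agent.Q74.Semi.Mod
import Pool.Agent.Q74.Semi.Diff
import Pool.Agent.Q74.Semi.Profile
import Pool.Agent.Q74.Semi.Thin

/-! # On the thin set every semiconvex and semiconcave function is `C^{1,ω}` -/

set_option autoImplicit false

open Set Filter Topology
open scoped RealInnerProductSpace

namespace Pool.Agent.Q74.Semi

variable {E : Type*} [NormedAddCommGroup E] [InnerProductSpace ℝ E] [FiniteDimensional ℝ E]

theorem thin_C1 {e : E} (he : ‖e‖ = 1) {ω : ℝ → ℝ} (hω : Mod ω) {γ : ℝ → ℝ}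
    (hγconc : ConcaveOn ℝ univ γ) (hγlip : ∀ u v, γ u ≤ γ v + |u - v|)
    (hγmono : ∀ u v, u ≤ v → γ u ≤ γ v) (hγle : ∀ u, γ u ≤ u) (hγlow : ∀ u, min u 1 ≤ γ u)
    {K c s₀ : ℝ} (hK : 1 ≤ K) (hc : 0 < c) (hc1 : c < 1) (hs₀ : 0 < s₀)
    (hhalf : ∀ R, s₀ ≤ R → 2 * ω (c * R) ≤ ω R)
    (hγω : ∀ u, 0 < u → u * ω (γ u) ≤ 2 * K * (γ u * ω u))
    {f : E → ℝ}
    (hf : ∀ x ∈ thin e γ, ∀ y ∈ thin e γ, ∀ l ∈ Icc (0:ℝ) 1,
      |l * f x + (1 - l) * f y - f (l • x + (1 - l) • y)| ≤ l * (1 - l) * (‖x - y‖ * ω ‖x - y‖)) :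
    ∃ C : ℝ, 0 < C ∧ (∀ x ∈ thin e γ, DifferentiableAt ℝ f x) ∧
      ∀ x ∈ thin e γ, ∀ y ∈ thin e γ, ‖fderiv ℝ f x - fderiv ℝ f y‖ ≤ C * ω ‖x - y‖ := by
  set G : Set E := thin e γ with hG
  have hγcont : Continuous γ := by
    refine (LipschitzWith.of_dist_le_mul (K := 1) fun x y => ?_).continuous
    rw [Real.dist_eq, Real.dist_eq, NNReal.coe_one, one_mul, abs_le]
    have h1 := hγlip x y
    have h2 := hγlip y x
    rw [abs_sub_comm] at h2
    constructor <;> linarith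
  have hGo : IsOpen G := isOpen_thin hγcont
  set D : E → E →L[ℝ] ℝ := fderiv ℝ f with hDdef
  have hDall : ∀ p ∈ G, HasFDerivAt f (D p) p ∧ ∀ y ∈ G, |f y - f p - D p (y - p)| ≤ ‖y - p‖ * ω ‖y - p‖ := by
    intro p hp
    obtain ⟨D', hD'⟩ := exists_fderiv hGo hω hf hp
    have h1 := hasFDerivAt_of_est hGo hω hp hD'
    have h2 : D p = D' := h1.fderiv
    rw [h2]
    refine ⟨h1, fun y hy => ?_⟩
    have := hD' (y - p) (by simpa using hy)
    rwa [add_sub_cancel] at this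
  set S : E → ℝ := fun p => max ⟪e, p⟫ s₀ with hS
  have hSs : ∀ p, s₀ ≤ S p := fun p => le_max_right _ _
  have hγpos : ∀ s, 0 < s → 0 < γ s := fun s hs => lt_of_lt_of_le (lt_min hs one_pos) (hγlow s)
  have hγS : ∀ p, 0 < γ (S p) := fun p => hγpos _ (hs₀.trans_le (hSs p))
  set κ : ℝ := 1 + s₀ / γ s₀ with hκ
  have hγs₀ : 0 < γ s₀ := hγpos _ hs₀
  have hκ1 : 1 ≤ κ := by
    have : 0 ≤ s₀ / γ s₀ := by positivity
    linarith
  have hκp : ∀ p ∈ G, ‖S p • e - p‖ ≤ κ * γ (S p) := by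
    intro p hp
    have hp' : ‖perp e p‖ < γ ⟪e, p⟫ := hp
    have hpos : 0 < ⟪e, p⟫ := by linarith [norm_nonneg (perp e p), hγle ⟪e, p⟫]
    have h1 : S p • e - p = (S p - ⟪e, p⟫) • e - perp e p := by
      rw [perp, sub_smul]; abel
    have h2 : |S p - ⟪e, p⟫| ≤ s₀ := by
      have a1 : 0 ≤ S p - ⟪e, p⟫ := sub_nonneg.2 (le_max_left _ _)
      rw [abs_of_nonneg a1]
      have : S p ≤ ⟪e, p⟫ + s₀ := max_le (by linarith) (by linarith)
      linarith
    have h3 : γ ⟪e, p⟫ ≤ γ (S p) := hγmono _ _ (le_max_left _ _)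
    have h4 : s₀ ≤ s₀ / γ s₀ * γ (S p) := by
      rw [div_mul_eq_mul_div, le_div_iff₀ hγs₀]
      exact mul_le_mul_of_nonneg_left (hγmono _ _ (hSs p)) hs₀.le
    calc ‖S p • e - p‖ ≤ ‖(S p - ⟪e, p⟫) • e‖ + ‖perp e p‖ := by rw [h1]; exact norm_sub_le _ _
      _ = |S p - ⟪e, p⟫| + ‖perp e p‖ := by rw [norm_smul, he, mul_one, Real.norm_eq_abs]
      _ ≤ s₀ / γ s₀ * γ (S p) + γ (S p) := by linarith
      _ = _ := by rw [hκ]; ring
  set C1 : ℝ := 4 * (κ + 2) ^ 2 with hC1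
  have hC1pos : 0 < C1 := by positivity
  have hfinal : ∀ t, 0 < t → 2 * ((κ + 2) * t) * ω ((κ + 2) * t) / (t / 2) ≤ C1 * ω t := by
    intro t ht
    have h1 := hω.scale (c := κ + 2) (t := t) (by linarith) ht.le
    rw [div_le_iff₀ (by positivity)]
    calc 2 * ((κ + 2) * t) * ω ((κ + 2) * t) ≤ 2 * ((κ + 2) * t) * ((κ + 2) * ω t) := by gcongr
      _ = _ := by rw [hC1]; ring
  -- Lemma L
  have lemL : ∀ p ∈ G, ∀ q ∈ G, ‖p - q‖ ≤ γ (S p) → ‖D p - D q‖ ≤ C1 * ω ‖p - q‖ := by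
    intro p hp q hq hpq
    rcases eq_or_lt_of_le (norm_nonneg (p - q)) with h0 | h0
    · have : p = q := by rwa [eq_comm, norm_eq_zero, sub_eq_zero] at h0
      rw [this, sub_self, norm_zero]
      exact mul_nonneg hC1pos.le (hω.nonneg _ (norm_nonneg _))
    · set t : ℝ := ‖p - q‖ with ht
      set θ : ℝ := t / γ (S p) with hθ
      have hθ0 : 0 < θ := div_pos h0 (hγS p)
      have hθ1 : θ ≤ 1 := (div_le_one (hγS p)).2 hpq
      have hθγ : θ * γ (S p) = t := div_mul_cancel₀ _ (hγS p).ne'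
      have hmp : ‖p + θ • (S p • e - p) - p‖ ≤ κ * t := by
        rw [add_sub_cancel_left, norm_smul, Real.norm_of_nonneg hθ0.le]
        calc θ * ‖S p • e - p‖ ≤ θ * (κ * γ (S p)) := by gcongr; exact hκp p hp
          _ = κ * (θ * γ (S p)) := by ring
          _ = _ := by rw [hθγ]
      have hmq : ‖p + θ • (S p • e - p) - q‖ ≤ κ * t + t := by
        calc ‖p + θ • (S p • e - p) - q‖ = ‖(p + θ • (S p • e - p) - p) + (p - q)‖ := by
              rw [sub_add_sub_cancel]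
          _ ≤ _ := (norm_add_le _ _).trans (by linarith)
      refine (ball_compare hω (hDall p hp).2 (hDall q hq).2 (m := p + θ • (S p • e - p)) (ρ := t / 2)
        (T := (κ + 2) * t) (by positivity) (fun v hv => ?_) (by nlinarith) (by nlinarith)).trans
        (hfinal t h0)
      exact ball_mem' he hγconc hγlip hp hθ0 hθ1 (by
        calc ‖v‖ < t / 2 := hv
          _ = θ * (γ (S p) / 2) := by rw [← hθγ]; ring)
  have haxis : ∀ s : ℝ, 0 < s → s • e ∈ G := by
    intro s hs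
    rw [hG]
    exact axis_mem he hγlow hs
  -- Lemma M
  have lemM : ∀ p ∈ G, ‖D p - D (S p • e)‖ ≤ C1 * ω (γ (S p)) := by
    intro p hp
    have hSp : 0 < S p := hs₀.trans_le (hSs p)
    have h1 := hκp p hp
    have h2 := hγS p
    refine (ball_compare hω (hDall p hp).2 (hDall _ (haxis _ hSp)).2 (m := S p • e) (ρ := γ (S p) / 2)
        (T := (κ + 2) * γ (S p)) (by positivity) (fun v hv => ball_mem he hγlip hv) (by nlinarith)
        (by rw [sub_self, norm_zero]; nlinarith)).trans (hfinal _ h2)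
  -- the axis
  have hSaxis : ∀ s, s₀ ≤ s → S (s • e) = s := by
    intro s hs
    simp only [hS, inner_smul_right, real_inner_self_eq_norm_sq, he, one_pow, mul_one]
    exact max_eq_left hs
  set M : ℝ := 4 * K / c with hM
  have hMpos : 0 < M := by positivity
  have axis : ∀ N : ℕ, ∀ a b T : ℝ, s₀ ≤ a → a ≤ b → b - a ≤ N * γ s₀ → b - a ≤ T →
      ‖D (a • e) - D (b • e)‖ ≤ C1 * (M * (ω b - ω a) + ω T) := by
    have direct : ∀ a b T : ℝ, s₀ ≤ a → a ≤ b → b ≤ a + γ a → b - a ≤ T →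
        ‖D (a • e) - D (b • e)‖ ≤ C1 * (M * (ω b - ω a) + ω T) := by
      intro a b T ha hab hb hT
      have ha0 : 0 < a := hs₀.trans_le ha
      have e1 : ‖a • e - b • e‖ = b - a := by
        rw [← sub_smul, norm_smul, he, mul_one, Real.norm_eq_abs, abs_sub_comm,
          abs_of_nonneg (by linarith)]
      have h1 := lemL _ (haxis a ha0) _ (haxis b (by linarith)) (by
        rw [e1, hSaxis a ha]; linarith)
      rw [e1] at h1
      refine h1.trans ?_
      have h2 : ω (b - a) ≤ ω T := hω.mono _ _ (by linarith) hT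
      have h3 : ω a ≤ ω b := hω.mono _ _ ha0.le hab
      have h4 : 0 ≤ M * (ω b - ω a) := mul_nonneg hMpos.le (by linarith)
      gcongr
      linarith
    intro N
    induction N with
    | zero =>
      intro a b T ha hab hN hT
      have ha0 : 0 < γ a := hγpos _ (hs₀.trans_le ha)
      refine direct a b T ha hab ?_ hT
      simp only [Nat.cast_zero, zero_mul] at hN
      linarith
    | succ N ih =>
      intro a b T ha hab hN hT
      have ha0 : 0 < γ a := hγpos _ (hs₀.trans_le ha)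
      rcases le_or_gt b (a + γ a) with h | h
      · exact direct a b T ha hab h hT
      · have h1 := ih (a + γ a) b T (by linarith) h.le (by
          push_cast at hN
          have := hγmono _ _ ha
          linarith) (by linarith)
        have h2 : ‖D (a • e) - D ((a + γ a) • e)‖ ≤ C1 * ω (γ a) := by
          have ha' : 0 < a := hs₀.trans_le ha
          have e1 : ‖a • e - (a + γ a) • e‖ = γ a := by
            rw [← sub_smul, norm_smul, he, mul_one, Real.norm_eq_abs, abs_sub_comm, add_sub_cancel_left,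
              abs_of_pos ha0]
          have := lemL _ (haxis a ha') _ (haxis (a + γ a) (by linarith)) (by
            rw [e1, hSaxis a ha])
          rwa [e1] at this
        have h3 := potential hω hK hc hc1 hs₀ hhalf hγle hγlow hγω ha
        rw [← hM] at h3
        calc ‖D (a • e) - D (b • e)‖
            ≤ ‖D (a • e) - D ((a + γ a) • e)‖ + ‖D ((a + γ a) • e) - D (b • e)‖ :=
              norm_sub_le_norm_sub_add_norm_sub _ _ _
          _ ≤ C1 * (M * (ω (a + γ a) - ω a)) + C1 * (M * (ω b - ω (a + γ a)) + ω T) := by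
              refine add_le_add (h2.trans ?_) h1
              gcongr
          _ = _ := by ring
  refine ⟨C1 * (M + 3), by positivity, fun x hx => (hDall x hx).1.differentiableAt, ?_⟩
  -- main estimate, first for `S p ≤ S q`
  have main : ∀ p ∈ G, ∀ q ∈ G, S p ≤ S q → ‖D p - D q‖ ≤ C1 * (M + 3) * ω ‖p - q‖ := by
    intro p hp q hq hpq
    have hω0 : 0 ≤ ω ‖p - q‖ := hω.nonneg _ (norm_nonneg _)
    rcases le_or_gt ‖p - q‖ (γ (S p)) with h | h
    · refine (lemL p hp q hq h).trans ?_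
      gcongr
      nlinarith
    rcases le_or_gt ‖q - p‖ (γ (S q)) with h' | h'
    · rw [norm_sub_rev, norm_sub_rev p q]
      rw [norm_sub_rev] at hω0
      refine (lemL q hq p hp h').trans ?_
      gcongr
      nlinarith
    rw [norm_sub_rev] at h'
    have hSS : S q - S p ≤ ‖p - q‖ := by
      have h1 : ⟪e, q⟫ - ⟪e, p⟫ ≤ ‖p - q‖ := by
        rw [← inner_sub_right, norm_sub_rev]
        exact (le_abs_self _).trans (abs_inner_le he _)
      have h2 : S q ≤ S p + ‖p - q‖ := by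
        refine max_le ?_ ?_
        · have : ⟪e, p⟫ ≤ S p := le_max_left _ _
          linarith
        · linarith [hSs p, norm_nonneg (p - q)]
      linarith
    obtain ⟨N, hN⟩ := exists_nat_ge ((S q - S p) / γ s₀)
    rw [div_le_iff₀ hγs₀] at hN
    have h1 := axis N (S p) (S q) ‖p - q‖ (hSs p) hpq hN hSS
    have h2 := lemM p hp
    have h3 := lemM q hq
    have h4 : ω (γ (S p)) ≤ ω ‖p - q‖ := hω.mono _ _ (hγS p).le h.le
    have h5 : ω (γ (S q)) ≤ ω ‖p - q‖ := hω.mono _ _ (hγS q).le h'.le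
    have h6 : ω (S q) - ω (S p) ≤ ω ‖p - q‖ := by
      have a1 : 0 ≤ S p := hs₀.le.trans (hSs p)
      have a2 := hω.subadd a1 (sub_nonneg.2 hpq)
      rw [add_sub_cancel] at a2
      have a3 := hω.mono _ _ (sub_nonneg.2 hpq) hSS
      linarith
    calc ‖D p - D q‖ ≤ ‖D p - D (S p • e)‖ + ‖D (S p • e) - D q‖ :=
          norm_sub_le_norm_sub_add_norm_sub _ _ _
      _ ≤ ‖D p - D (S p • e)‖ + (‖D (S p • e) - D (S q • e)‖ + ‖D (S q • e) - D q‖) := by
          gcongr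
          exact norm_sub_le_norm_sub_add_norm_sub _ _ _
      _ ≤ C1 * ω (γ (S p)) + (C1 * (M * (ω (S q) - ω (S p)) + ω ‖p - q‖) + C1 * ω (γ (S q))) := by
          rw [norm_sub_rev (D (S q • e))]
          gcongr
      _ ≤ C1 * ω ‖p - q‖ + (C1 * (M * ω ‖p - q‖ + ω ‖p - q‖) + C1 * ω ‖p - q‖) := by gcongr
      _ = _ := by ring
  intro x hx y hy
  rcases le_total (S x) (S y) with h | h
  · exact main x hx y hy h
  · rw [norm_sub_rev, norm_sub_rev x y]
    exact main y hy x hx h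

/-- Theorem B. -/
theorem exists_thin {e w : E} (he : ‖e‖ = 1) (hw : ‖w‖ = 1) (hew : ⟪e, w⟫ = 0) {ω : ℝ → ℝ} (hω : Mod ω)
    {K : ℝ} (hns : ∀ c ∈ Ioo (0:ℝ) 1, ∀ᶠ R in atTop, ω (c * R) ≤ K * (c * ω R)) :
    ∃ G : Set E, IsOpen G ∧ Convex ℝ G ∧ ¬ Bornology.IsBounded G ∧
      (¬ ∃ (a : E) (C : Set E), Convex ℝ C ∧ (∀ x ∈ C, ∀ l : ℝ, 0 < l → l • x ∈ C) ∧
      (interior C).Nonempty ∧ ∀ x ∈ C, a + x ∈ G) ∧
      ∀ f : E → ℝ, (∀ x ∈ G, ∀ y ∈ G, ∀ l ∈ Icc (0:ℝ) 1,
        |l * f x + (1 - l) * f y - f (l • x + (1 - l) • y)| ≤ l * (1 - l) * (‖x - y‖ * ω ‖x - y‖)) →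
        ∃ C : ℝ, 0 < C ∧ (∀ x ∈ G, DifferentiableAt ℝ f x) ∧
        ∀ x ∈ G, ∀ y ∈ G, ‖fderiv ℝ f x - fderiv ℝ f y‖ ≤ C * ω ‖x - y‖ := by
  set K' : ℝ := max K 1 with hK'
  have hK'1 : 1 ≤ K' := le_max_right _ _
  have hns' : ∀ c ∈ Ioo (0:ℝ) 1, ∀ᶠ R in atTop, ω (c * R) ≤ K' * (c * ω R) := by
    intro c hc
    filter_upwards [hns c hc, eventually_ge_atTop (0:ℝ)] with R hR hR0
    refine hR.trans ?_
    have : 0 ≤ ω R := hω.nonneg _ hR0
    have hc0 := hc.1
    gcongr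
    exact le_max_left _ _
  obtain ⟨γ, hγconc, hγlip, hγmono, hγle, hγlow, hγsub, hγω⟩ := exists_profile hω hK'1 hns'
  have hc : (1 / (2 * K')) ∈ Ioo (0:ℝ) 1 := by
    constructor
    · positivity
    · rw [div_lt_one (by positivity)]; linarith
  obtain ⟨s₁, hs₁⟩ := eventually_atTop.1 (hns' _ hc)
  have hγcont : Continuous γ := by
    refine (LipschitzWith.of_dist_le_mul (K := 1) fun x y => ?_).continuous
    rw [Real.dist_eq, Real.dist_eq, NNReal.coe_one, one_mul, abs_le]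
    have h1 := hγlip x y
    have h2 := hγlip y x
    rw [abs_sub_comm] at h2
    constructor <;> linarith
  refine ⟨thin e γ, isOpen_thin hγcont, convex_thin hγconc, unbounded_thin he hγlow,
    coneFree_thin he hw hew hγle hγmono hγsub, fun f hf => ?_⟩
  refine thin_C1 he hω hγconc hγlip hγmono hγle hγlow hK'1 hc.1 hc.2 (s₀ := max s₁ 1)
    (lt_of_lt_of_le one_pos (le_max_right _ _)) (fun R hR => ?_) hγω hf
  have h1 := hs₁ R ((le_max_left _ _).trans hR)
  have h2 : K' * (1 / (2 * K') * ω R) = ω R / 2 := by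
    have : K' ≠ 0 := by positivity
    field_simp
  rw [h2] at h1
  linarith

end Pool.Agent.Q74.Semi
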